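import Pool.Agent.Y152.AS.Sym

/-!
# The projector on the transcendental motive of an abelian surface
-/

open CategoryTheory AlgebraicGeometry

universe u v w

namespace Pool.Agent.Y152.AS

open Pool.Agent.H914 Pool.Agent.H914.VarClass Pool.Agent.H914.VarClass.Obj Pool.Agent.W492.BB
  Pool.Agent.W550.Corr Pool.Agent.TH133

set_option linter.unusedSectionVars false

variable {k : Type u} [Field k] {𝒱 : VarClass k} {C : TheoryData.{u, v, 0} 𝒱 ℚ}
  [hC : IsChowProj C] {K : Type w} [Field K] {H : WeilTheoryData.{u, v, w} C K}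
  [hH : IsWeilProj H] {A S T V : 𝒱.Obj} {W X Y R Z : 𝒱.Obj}

section general

variable (C) in
/-- The Albanese kernel as a subspace. -/
noncomputable def albKer (S : 𝒱.Obj) : Submodule ℚ (C.A S) where
  carrier := {α | C.Deg S.dim α ∧ ∀ (Y : 𝒱.Obj) (W : C.A (S.prod Y)), C.Deg 1 W →
    C.act W α = 0}
  add_mem' := by
    rintro a b ⟨ha, ha'⟩ ⟨hb, hb'⟩
    refine ⟨Submodule.add_mem _ ha hb, fun Y W hW => ?_⟩
    rw [act_map_add, ha' Y W hW, hb' Y W hW, add_zero]
  zero_mem' := ⟨Submodule.zero_mem _, fun Y W _ => C.act_map_zero W⟩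
  smul_mem' := by
    rintro q a ⟨ha, ha'⟩
    refine ⟨Submodule.smul_mem _ q ha, fun Y W hW => ?_⟩
    rw [act_map_smul, ha' Y W hW, smul_zero]

omit hC in
lemma inAlbKer_iff {α : C.A S} : InAlbKer C α ↔ α ∈ albKer C S :=
  ⟨fun h => ⟨h.1, h.2⟩, fun h => ⟨h.1, h.2⟩⟩

variable (C) in
/-- The subspace of degenerate correspondences. -/
noncomputable def degenerate (S T : 𝒱.Obj) : Submodule ℚ (C.A (S.prod T)) :=
  Submodule.span ℚ {c | ∃ (Y : 𝒱.Obj) (Γ : C.A (S.prod Y)) (Δ : C.A (Y.prod T)), Y.dim = 1 ∧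
    ((C.Deg 1 Γ ∧ C.Deg 2 Δ) ∨ (C.Deg 2 Γ ∧ C.Deg 1 Δ)) ∧ c = C.comp Γ Δ}

omit hC in
lemma IsDegenerate.mem {W : C.A (S.prod T)} (h : IsDegenerate C W) : W ∈ degenerate C S T := by
  induction h with
  | zero => exact Submodule.zero_mem _
  | left Y Γ Δ hY h1 h2 => exact Submodule.subset_span ⟨Y, Γ, Δ, hY, Or.inl ⟨h1, h2⟩, rfl⟩
  | right Y Γ Δ hY h1 h2 => exact Submodule.subset_span ⟨Y, Γ, Δ, hY, Or.inr ⟨h1, h2⟩, rfl⟩
  | add Z W _ _ h1 h2 => exact Submodule.add_mem _ h1 h2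

lemma deg_cast {X : 𝒱.Obj} {i j : ℤ} (h : i = j) {z : C.A X} (hz : z ∈ C.gr X i) :
    z ∈ C.gr X j := h ▸ hz

lemma comp_smul_left (c : ℚ) (Γ : C.A (X.prod Y)) (Δ : C.A (Y.prod Z)) :
    C.comp (c • Γ) Δ = c • C.comp Γ Δ := by
  have := congrArg (fun f => f Δ) (map_smul (compL C (X := X) (Y := Y) (Z := Z)) c Γ)
  exact this

lemma comp_smul_right (c : ℚ) (Γ : C.A (X.prod Y)) (Δ : C.A (Y.prod Z)) :
    C.comp Γ (c • Δ) = c • C.comp Γ Δ := map_smul (compL C Γ) c Δ

lemma act_smul (c : ℚ) (Γ : C.A (X.prod Y)) (a : C.A X) :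
    C.act (c • Γ) a = c • C.act Γ a := by
  rw [C.act_apply, smul_mul_assoc, map_smul]; rfl

lemma act_neg (Γ : C.A (X.prod Y)) (a : C.A X) : C.act (-Γ) a = -C.act Γ a := by
  rw [C.act_apply, neg_mul, map_neg]; rfl

/-- Pull-back on the first factor of a composition. -/
lemma pull_comp_left (a : V ⟶ X) (Γ : C.A (X.prod Y)) (Δ : C.A (Y.prod Z)) :
    C.pull (prodMap a (𝟙 Z)) (C.comp Γ Δ) = C.comp (C.pull (prodMap a (𝟙 Y)) Γ) Δ := by
  have h1 : ∀ {Z : 𝒱.Obj} (Γ : C.A (X.prod Z)),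
      C.pull (prodMap a (𝟙 Z)) Γ = C.comp (Y148.BB.wg C a 1) Γ := fun Γ => by
    rw [Y148.BB.wg_comp, map_one, mul_one]
  rw [h1, h1, comp_assoc]

/-- Pull-back on the second factor of a composition. -/
lemma pull_comp_right (b : V ⟶ Z) (Γ : C.A (X.prod Y)) (Δ : C.A (Y.prod Z)) :
    C.pull (prodMap (𝟙 X) b) (C.comp Γ Δ) = C.comp Γ (C.pull (prodMap (𝟙 Y) b) Δ) := by
  rw [Y148.BB.pull_eq_comp, Y148.BB.pull_eq_comp, comp_assoc]

/-- The Albanese kernel is preserved by correspondences of degree zero between surfaces. -/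
lemma act_albKer (hS : S.dim = 2) (hT : T.dim = 2) {Γ : C.A (S.prod T)}
    (hΓ : Γ ∈ C.gr (S.prod T) 2) {α : C.A S} (hα : α ∈ albKer C S) :
    C.act Γ α ∈ albKer C T := by
  refine ⟨?_, fun Y W hW => ?_⟩
  · have h1 := act_mem' C (e := 0) (Γ := Γ) (by rw [hS]; exact hΓ) hα.1
    exact deg_cast (by rw [hS, hT]; norm_num) h1
  · rw [← C.act_comp]
    refine hα.2 Y _ ?_
    have h1 := comp_mem C (e := 0) (e' := -1) (Γ := Γ) (Δ := W) (by rw [hS]; exact hΓ)
      (by rw [hT]; exact hW)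
    exact deg_cast (by rw [hS]; norm_num) h1

lemma degenerate_act (hS : S.dim = 2) {W : C.A (S.prod T)} (hW : W ∈ degenerate C S T)
    {α : C.A S} (hα : α ∈ albKer C S) : C.act W α = 0 := by
  induction hW using Submodule.span_induction with
  | mem x hx =>
    obtain ⟨Y, Γ, Δ, hY, hd, rfl⟩ := hx
    rw [C.act_comp]
    rcases hd with ⟨h1, -⟩ | ⟨h1, -⟩
    · rw [hα.2 Y Γ h1, C.act_map_zero]
    · have h2 := act_mem' C (e := 0) (Γ := Γ) (by rw [hS]; exact h1) hα.1
      rw [hC.gr_top Y _ _ h2 (by rw [hS, hY]; norm_num), C.act_map_zero]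
  | zero => rw [C.act_zero]
  | add x y _ _ hx hy => rw [C.act_add, hx, hy, add_zero]
  | smul c x _ hx => rw [act_smul, hx, smul_zero]

lemma degenerate_tp {W : C.A (S.prod T)} (hW : W ∈ degenerate C S T) :
    tp C W ∈ degenerate C T S := by
  induction hW using Submodule.span_induction with
  | mem x hx =>
    obtain ⟨Y, Γ, Δ, hY, hd, rfl⟩ := hx
    rw [tp_comp C (ch_comm C)]
    refine Submodule.subset_span ⟨Y, tp C Δ, tp C Γ, hY, ?_, rfl⟩
    rcases hd with ⟨h1, h2⟩ | ⟨h1, h2⟩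
    · exact Or.inr ⟨C.pull_mem _ h2, C.pull_mem _ h1⟩
    · exact Or.inl ⟨C.pull_mem _ h2, C.pull_mem _ h1⟩
  | zero => rw [tp_zero]; exact Submodule.zero_mem _
  | add x y _ _ hx hy => rw [tp_add]; exact Submodule.add_mem _ hx hy
  | smul c x _ hx => rw [tp_smul]; exact Submodule.smul_mem _ _ hx

end general

section surface

variable [GroupLaw A] {θ : C.A A}

/-- The part of type `(2, 2)` of the class of the diagonal of `A × A`. -/
noncomputable def pr (θ : C.A A) (q : ℚ) : C.A (A.prod A) :=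
  q • (bC θ (fst A A) (snd A A) * bC θ (fst A A) (snd A A) +
    (2 : ℚ) • (eC θ (fst A A) * eC θ (snd A A)))

lemma pr_mem (hθ : C.Deg 1 θ) (q : ℚ) : pr θ q ∈ C.gr (A.prod A) 2 := by
  refine Submodule.smul_mem _ _ (Submodule.add_mem _ ?_ (Submodule.smul_mem _ _ ?_))
  · exact deg_cast (by norm_num) (C.mul_mem (bC_mem hθ _ _) (bC_mem hθ _ _))
  · exact deg_cast (by norm_num) (C.mul_mem (eC_mem hθ _) (eC_mem hθ _))

lemma pull_pr (q : ℚ) (f : X ⟶ A.prod A) (x y : X ⟶ A) (hx : f ≫ fst A A = x)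
    (hy : f ≫ snd A A = y) : C.pull f (pr θ q) =
      q • (bC θ x y * bC θ x y + (2 : ℚ) • (eC θ x * eC θ y)) := by
  rw [pr, map_smul, map_add, map_smul, map_mul, map_mul, pull_bC, pull_eC, pull_eC, hx, hy]

lemma tp_pr (q : ℚ) : tp C (pr θ q) = pr θ q := by
  rw [tp, pull_pr q (sw A A) (snd A A) (fst A A) (lift_fst _ _) (lift_snd _ _), bC_comm,
    ch_comm C (eC θ (snd A A))]
  rfl

lemma pr_left (hc : Cube θ) (q : ℚ) (n : ℤ) :
    C.pull (prodMap (n • 𝟙 A) (𝟙 A)) (pr θ q) = ((n : ℚ) ^ 2) • pr θ q := by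
  rw [pull_pr q _ (n • fst A A) (snd A A) (by rw [prodMap_fst, comp_zsmul', Category.comp_id])
    (by rw [prodMap_snd, Category.comp_id]), pr, bC_zsmul_left hc, eC_zsmul hc,
    ← Int.cast_smul_eq_zsmul ℚ, ← Int.cast_smul_eq_zsmul ℚ, smul_mul_smul_comm, smul_mul_assoc,
    smul_comm (2 : ℚ), smul_comm ((n : ℚ) ^ 2) q, smul_add]
  push_cast
  rw [pow_two, ← smul_add, ← smul_add]

lemma pr_right (hc : Cube θ) (q : ℚ) (n : ℤ) :
    C.pull (prodMap (𝟙 A) (n • 𝟙 A)) (pr θ q) = ((n : ℚ) ^ 2) • pr θ q := by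
  rw [pull_pr q _ (fst A A) (n • snd A A) (by rw [prodMap_fst, Category.comp_id])
    (by rw [prodMap_snd, comp_zsmul', Category.comp_id]), pr, bC_zsmul_right hc, eC_zsmul hc,
    ← Int.cast_smul_eq_zsmul ℚ, ← Int.cast_smul_eq_zsmul ℚ, smul_mul_smul_comm, mul_smul_comm,
    smul_comm (2 : ℚ), smul_comm ((n : ℚ) ^ 2) q, smul_add]
  push_cast
  rw [pow_two, ← smul_add, ← smul_add]

/-- The correspondence `pr` acts as the identity on the Albanese kernel. -/
lemma act_pr (hc : Cube θ) (hd : A.dim = 2) (hθ : C.Deg 1 θ) {q : ℚ} (hp : Point θ q)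
    {α : C.A A} (hα : α ∈ albKer C A) : C.act (pr θ q) α = α := by
  have h1 : dg C A = q • (eC θ (fst A A - snd A A) * eC θ (fst A A - snd A A)) := by
    have := graph_eq hp (𝟙 A)
    rw [Category.comp_id] at this
    rw [← this]; rfl
  have h2 : dg C A = pr θ q + q • (eC θ (fst A A) * eC θ (fst A A) +
      (-2 : ℚ) • (eC θ (fst A A) * bC θ (fst A A) (snd A A)) +
      (-2 : ℚ) • (bC θ (fst A A) (snd A A) * eC θ (snd A A)) +
      eC θ (snd A A) * eC θ (snd A A)) := by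
    rw [h1, sq_expand hc, pr, ← smul_add]
    congr 1
    abel
  have h3 := act_dg C α
  have hα2 : α ∈ C.gr A 2 := by
    have := hα.1
    rwa [hd] at this
  -- the four remaining terms
  have t1 : C.act (eC θ (fst A A) * eC θ (fst A A)) α = 0 := by
    rw [C.act_apply, eC, mul_assoc, ← map_mul, ← map_mul]
    have h4 : θ * (θ * α) = 0 :=
      hC.gr_top A _ _ (C.mul_mem hθ (C.mul_mem hθ hα2)) (by rw [hd]; norm_num)
    rw [h4, map_zero, map_zero]
  have t2 : C.act (eC θ (fst A A) * bC θ (fst A A) (snd A A)) α = 0 := by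
    rw [C.act_apply, ch_comm C (eC θ (fst A A)), eC, mul_assoc, ← map_mul]
    have h4 : θ * α = 0 := hC.gr_top A _ _ (C.mul_mem hθ hα2) (by rw [hd]; norm_num)
    rw [h4, map_zero, mul_zero, map_zero]
  have t3 : C.act (bC θ (fst A A) (snd A A) * eC θ (snd A A)) α = 0 := by
    rw [C.act_apply, ch_comm C (bC θ _ _), mul_assoc, eC, C.proj_left]
    have h4 := hα.2 A (bC θ (fst A A) (snd A A)) (bC_mem hθ _ _)
    rw [C.act_apply] at h4
    rw [h4, mul_zero]
  have t4 : C.act (eC θ (snd A A) * eC θ (snd A A)) α = 0 := by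
    rw [C.act_apply, mul_assoc]
    nth_rw 1 [eC]
    rw [C.proj_left]
    have h4 := hα.2 A (eC θ (snd A A)) (eC_mem hθ _)
    rw [C.act_apply] at h4
    rw [h4, mul_zero]
  rw [h2, C.act_add, act_smul, C.act_add, C.act_add, C.act_add, act_smul, act_smul, t1, t2, t3,
    t4, smul_zero, add_zero, add_zero, add_zero, smul_zero, add_zero] at h3
  exact h3

lemma ty_comp (hc : Cube θ) (q : ℚ) (Z : C.A (A.prod A)) :
    Ty (C.comp (pr θ q) (C.comp Z (pr θ q))) := by
  intro X x y n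
  constructor
  · have e1 : Obj.lift (n • x) y = Obj.lift x y ≫ prodMap (n • 𝟙 A) (𝟙 A) := by
      apply prod_ext
      · rw [lift_fst, Category.assoc, prodMap_fst, ← Category.assoc, lift_fst, comp_zsmul',
          Category.comp_id]
      · rw [lift_snd, Category.assoc, prodMap_snd, ← Category.assoc, lift_snd, Category.comp_id]
    rw [ev, e1, C.pull_comp, pull_comp_left, pr_left hc, comp_smul_left, map_smul]
    rfl
  · have e1 : Obj.lift x (n • y) = Obj.lift x y ≫ prodMap (𝟙 A) (n • 𝟙 A) := by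
      apply prod_ext
      · rw [lift_fst, Category.assoc, prodMap_fst, ← Category.assoc, lift_fst, Category.comp_id]
      · rw [lift_snd, Category.assoc, prodMap_snd, ← Category.assoc, lift_snd, comp_zsmul',
          Category.comp_id]
    rw [ev, e1, C.pull_comp, pull_comp_right, pull_comp_right, pr_right hc, comp_smul_right,
      comp_smul_right, map_smul]
    rfl

/-- Homologically trivial correspondences of an abelian surface act as their transposes on the
Albanese kernel. -/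
theorem act_eq_tp (hA : IsAbelianSurface H A θ) {Z : C.A (A.prod A)}
    (hZ : Z ∈ C.gr (A.prod A) 2) (hcl : H.cl Z = 0) {α : C.A A} (hα : α ∈ albKer C A) :
    C.act Z α = C.act (tp C Z) α := by
  obtain ⟨q, hp⟩ := hA.point
  have hc : Cube θ := hA.cube
  have hd := hA.dim_eq
  have hθ := hA.deg
  have hpr : pr θ q ∈ C.gr (A.prod A) A.dim := by rw [hd]; exact pr_mem hθ q
  have hZ' : Z ∈ C.gr (A.prod A) A.dim := by rw [hd]; exact hZ
  set ζ : C.A (A.prod A) := C.comp (pr θ q) (C.comp Z (pr θ q)) with hζ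
  have h1 : ζ ∈ C.gr (A.prod A) 2 := by
    have := comp_mem0 C hpr (comp_mem0 C hZ' hpr)
    rwa [hd] at this
  have h2 : H.cl ζ = 0 := by
    rw [hζ, cl_comp, cl_comp, hcl, zero_comp, comp_zero]
  have h3 := ty_symm hA h1 h2 (ty_comp hc q Z)
  have h4 : ∀ {W : C.A (A.prod A)}, W ∈ C.gr (A.prod A) 2 →
      C.act (C.comp (pr θ q) (C.comp W (pr θ q))) α = C.act W α := by
    intro W hW
    rw [C.act_comp, C.act_comp, act_pr hc hd hθ hp hα,
      act_pr hc hd hθ hp (act_albKer hd hd hW hα)]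
  have h5 : tp C ζ = C.comp (pr θ q) (C.comp (tp C Z) (pr θ q)) := by
    rw [hζ, tp_comp C (ch_comm C), tp_comp C (ch_comm C), tp_pr, comp_assoc]
  rw [← h4 hZ, ← h4 (tp_mem C hZ), ← h5, h3]

/-- The theorem for surfaces dominated by an abelian surface. -/
theorem main (hA : IsAbelianSurface H A θ) (hS : S.dim = 2) (b : C.A (A.prod S))
    (hb : C.Deg 2 b) {N : ℚ} (hN : N ≠ 0)
    (hdom : ∀ α ∈ albKer C S, C.act b (C.act (tp C b) α) = N • α) (Z W : C.A (S.prod S))
    (hZ : C.Deg 2 Z) (hW : W ∈ degenerate C S S) (hZW : H.cl Z = H.cl W) :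
    ∀ α ∈ albKer C S, C.act Z α = C.act (tp C Z) α := by
  intro α hα
  have hd := hA.dim_eq
  have hW2 : W ∈ C.gr (S.prod S) 2 := by
    refine (Submodule.span_le.2 ?_ : degenerate C S S ≤ C.gr (S.prod S) 2) hW
    rintro c ⟨Y, Γ, Δ, hY, hd | hd, rfl⟩
    · have := comp_mem C (e := -1) (e' := 1) (Γ := Γ) (Δ := Δ) (by rw [hS]; exact hd.1)
        (by rw [hY]; exact hd.2)
      exact deg_cast (by rw [hS]; norm_num) this
    · have := comp_mem C (e := 0) (e' := 0) (Γ := Γ) (Δ := Δ) (by rw [hS]; exact hd.1)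
        (by rw [hY]; exact hd.2)
      exact deg_cast (by rw [hS]; norm_num) this
  have hV : Z - W ∈ C.gr (S.prod S) 2 := Submodule.sub_mem _ hZ hW2
  set V := Z - W with hVdef
  have hVcl : H.cl V = 0 := by rw [hVdef, map_sub, hZW, sub_self]
  have htb : tp C b ∈ C.gr (S.prod A) 2 := C.pull_mem _ hb
  have hVb : C.comp V (tp C b) ∈ C.gr (S.prod A) S.dim := by
    have := comp_mem C (e := 0) (e' := 0) (Γ := V) (Δ := tp C b) (by rw [hS]; exact hV)
      (by rw [hS]; exact htb)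
    exact deg_cast (by norm_num) this
  have h1 : C.comp b (C.comp V (tp C b)) ∈ C.gr (A.prod A) 2 := by
    have := comp_mem C (e := 0) (e' := 0) (Γ := b) (Δ := C.comp V (tp C b))
      (by rw [hd]; exact hb) (by rw [add_zero]; exact hVb)
    exact deg_cast (by rw [hd]; norm_num) this
  have h2 : H.cl (C.comp b (C.comp V (tp C b))) = 0 := by
    rw [cl_comp, cl_comp, hVcl, zero_comp, comp_zero]
  have h3 : tp C (C.comp b (C.comp V (tp C b))) = C.comp b (C.comp (tp C V) (tp C b)) := by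
    rw [tp_comp C (ch_comm C), tp_comp C (ch_comm C), tp_tp, comp_assoc]
  have h4 := act_eq_tp hA h1 h2 (act_albKer hS hd htb hα)
  rw [h3] at h4
  simp only [C.act_comp] at h4
  rw [hdom α hα] at h4
  have h5 : C.act V α = C.act Z α := by
    rw [hVdef, C.act_sub, degenerate_act hS hW hα, sub_zero]
  have h6 : C.act (tp C V) α = C.act (tp C Z) α := by
    rw [hVdef, tp_sub, C.act_sub, degenerate_act hS (degenerate_tp hW) hα, sub_zero]
  simp only [act_map_smul, h5, h6] at h4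
  have h7 := congrArg (C.act b) h4
  simp only [act_map_smul] at h7
  rw [hdom _ (act_albKer hS hS hZ hα), hdom _ (act_albKer hS hS (tp_mem C hZ) hα), smul_smul,
    smul_smul] at h7
  have h8 := congrArg (fun t => (N * N)⁻¹ • t) h7
  simp only [smul_smul] at h8
  rwa [inv_mul_cancel₀ (mul_ne_zero hN hN), one_smul, one_smul] at h8

end surface

end Pool.Agent.Y152.AS
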