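import Pool.Agent.TH133.Defs

/-!
# Abelian surfaces in Chow theories, Albanese kernels, degenerate correspondences: definitions
-/

open CategoryTheory AlgebraicGeometry

universe u v w

namespace Pool.Agent.Y152.AS

open Pool.Agent.H914 Pool.Agent.H914.VarClass Pool.Agent.H914.VarClass.Obj Pool.Agent.W492.BB
  Pool.Agent.W550.Corr Pool.Agent.TH133

variable {k : Type u} [Field k] {𝒱 : VarClass k}

/-- A commutative group law on the variety `A`: structures of abelian groups on the sets
`Hom(X, A)`, natural in `X`. A variety of the class (it is proper, smooth and geometrically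
irreducible) with a group law is an abelian variety. -/
class GroupLaw (A : 𝒱.Obj) where
  /-- the group structure of `Hom(X, A)` -/
  [grp : ∀ X : 𝒱.Obj, AddCommGroup (X ⟶ A)]
  comp_add : ∀ {W X : 𝒱.Obj} (f : W ⟶ X) (x y : X ⟶ A), f ≫ (x + y) = f ≫ x + f ≫ y

attribute [instance] GroupLaw.grp

/-- The abelian variety `A` is an abelian surface, and `θ ∈ CH^1(A)` is the class of a symmetric
divisor on `A` with `θ ^ 2 ≠ 0`, in the form of the following properties:
* the theorem of the cube: `x ↦ x^* θ` satisfies the parallelogram law on `Hom(X, A)`, for all `X`;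
* `[0] ∈ CH^2(A)_ℚ` is a rational multiple of `θ ^ 2` (since both `[0]` and `θ ^ 2` are multiplied
  by `n ^ 4` by the pull-back under the multiplication by `n`), and so for all `X` the class of
  `0 × X` in `CH^2(A × X)_ℚ` is this multiple of `θ ^ 2 × X`;
* a divisor class on the abelian variety `A × A` which is homologically trivial is anti-invariant
  under the multiplication by `-1` (it is in the connected component of the Picard group). -/
structure IsAbelianSurface {C : TheoryData.{u, v, 0} 𝒱 ℚ} {K : Type w} [Field K]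
    (H : WeilTheoryData.{u, v, w} C K) (A : 𝒱.Obj) [GroupLaw A] (θ : C.A A) : Prop where
  dim_eq : A.dim = 2
  deg : C.Deg 1 θ
  cube : ∀ (X : 𝒱.Obj) (x y : X ⟶ A),
    C.up (x + y) θ + C.up (x - y) θ = (2 : ℚ) • C.up x θ + (2 : ℚ) • C.up y θ
  point : ∃ q : ℚ, ∀ X : 𝒱.Obj,
    C.down (Obj.lift (0 : X ⟶ A) (𝟙 X)) 1 = q • C.up (fst A X) (C.mul θ θ)
  pic : ∀ D : C.A (A.prod A), C.Deg 1 D → H.cl D = 0 →
    C.up (prodMap (-𝟙 A) (-𝟙 A)) D = -D

section defs

variable (C : TheoryData.{u, v, 0} 𝒱 ℚ)

/-- The zero-cycle `α ∈ CH_0(S)_ℚ` lies in the Albanese kernel `F^2 CH_0(S)_ℚ`: it is mapped to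
zero by all correspondences `W ∈ CH^1(S × Y)`, `Y` any variety (these map zero-cycles on `S` to
divisor classes on `Y`). -/
structure InAlbKer {S : 𝒱.Obj} (α : C.A S) : Prop where
  deg : C.Deg S.dim α
  act_eq_zero : ∀ (Y : 𝒱.Obj) (W : C.A (S.prod Y)), C.Deg 1 W → C.act W α = 0

/-- The degenerate correspondences in `CH^2(S × T)_ℚ`, `S` and `T` surfaces: the sums of
compositions `S → Y → T` of correspondences through curves `Y` (equivalently, the classes of
cycles supported on `V × T` or on `S × V` for curves `V`). -/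
inductive IsDegenerate {S T : 𝒱.Obj} : C.A (S.prod T) → Prop
  | zero : IsDegenerate 0
  | left (Y : 𝒱.Obj) (Γ : C.A (S.prod Y)) (Δ : C.A (Y.prod T)) (hY : Y.dim = 1)
      (hΓ : C.Deg 1 Γ) (hΔ : C.Deg 2 Δ) : IsDegenerate (C.comp Γ Δ)
  | right (Y : 𝒱.Obj) (Γ : C.A (S.prod Y)) (Δ : C.A (Y.prod T)) (hY : Y.dim = 1)
      (hΓ : C.Deg 2 Γ) (hΔ : C.Deg 1 Δ) : IsDegenerate (C.comp Γ Δ)
  | add (Z W : C.A (S.prod T)) (hZ : IsDegenerate Z) (hW : IsDegenerate W) :
      IsDegenerate (Z + W)

/-- The surface `S` is dominated by the variety `A`: there is a correspondence `b ∈ CH^2(A × S)_ℚ`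
such that `b_* (ᵗb)_*` is the multiplication by a rational number `N ≠ 0` on `F^2 CH_0(S)_ℚ` (for
example `b` is the graph of a rational map `A ⇢ S` of degree `N`). -/
def IsDominatedBy (A S : 𝒱.Obj) : Prop :=
  S.dim = 2 ∧ ∃ (b : C.A (A.prod S)) (N : ℚ), C.Deg 2 b ∧ N ≠ 0 ∧
    ∀ α : C.A S, InAlbKer C α → C.act b (C.act (tp C b) α) = N • α

/-- The antisymmetric correspondence `Z - ᵗZ`. -/
noncomputable def antisym {S : 𝒱.Obj} (Z : C.A (S.prod S)) : C.A (S.prod S) := Z - tp C Z

variable {C}

/-- The correspondence `Z` between surfaces is homologically equivalent to a degenerate one. -/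
def IsHomDegenerate {K : Type w} [Field K] (H : WeilTheoryData.{u, v, w} C K) {S T : 𝒱.Obj}
    (Z : C.A (S.prod T)) : Prop := ∃ W, IsDegenerate C W ∧ H.cl Z = H.cl W

end defs

end Pool.Agent.Y152.AS
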