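import Pool.Agent.Y152.AS.Defs

/-!
# Similitudes between the transcendental motives of surfaces, and what they generate: definitions
-/

open CategoryTheory AlgebraicGeometry

universe u v w

namespace Pool.Agent.Y152.AS

open Pool.Agent.H914 Pool.Agent.H914.VarClass Pool.Agent.H914.VarClass.Obj Pool.Agent.W492.BB
  Pool.Agent.W550.Corr Pool.Agent.TH133

variable {k : Type u} [Field k] {𝒱 : VarClass k} (C : TheoryData.{u, v, 0} 𝒱 ℚ)

/-- The correspondence `Γ ∈ CH^2(S × T)_ℚ` between surfaces is a similitude: `Γ_* (ᵗΓ)_*` is the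
multiplication by a rational number `N ≠ 0` on `F^2 CH_0(T)_ℚ`. Examples are the graphs of the
dominant rational maps `S ⇢ T` (`N` is the degree of the map), and for K3 surfaces the components in
`CH^2(S × T)_ℚ` of the Mukai vectors of the kernels of derived equivalences (with `N = 1`). -/
def IsSimilitude {S T : 𝒱.Obj} (Γ : C.A (S.prod T)) : Prop :=
  C.Deg 2 Γ ∧ ∃ N : ℚ, N ≠ 0 ∧ ∀ β : C.A T, InAlbKer C β →
    C.act Γ (C.act (tp C Γ) β) = N • β

/-- The correspondences from `S` to surfaces `T` which are generated, under sums, rational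
multiples and compositions, by the similitudes from `S` to `T`, the self-correspondences of `S`
which are similitudes or antisymmetric, and the degenerate correspondences. -/
inductive IsGenerated {S : 𝒱.Obj} : ∀ {T : 𝒱.Obj}, C.A (S.prod T) → Prop
  | similitude {T : 𝒱.Obj} (Γ : C.A (S.prod T)) (h : IsSimilitude C Γ) : IsGenerated Γ
  | antisym (Z : C.A (S.prod S)) (hZ : C.Deg 2 Z) : IsGenerated (antisym C Z)
  | degenerate {T : 𝒱.Obj} (W : C.A (S.prod T)) (hW : IsDegenerate C W) : IsGenerated W
  | add {T : 𝒱.Obj} (Z W : C.A (S.prod T)) (hZ : IsGenerated Z) (hW : IsGenerated W) :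
      IsGenerated (Z + W)
  | smul {T : 𝒱.Obj} (q : ℚ) (Z : C.A (S.prod T)) (hZ : IsGenerated Z) : IsGenerated (q • Z)
  | comp {T : 𝒱.Obj} (Z : C.A (S.prod S)) (W : C.A (S.prod T)) (hZ : IsGenerated Z)
      (hW : IsGenerated W) : IsGenerated (C.comp Z W)

/-- The correspondence `Z` from `S` to `T` acts as zero on `F^2 CH_0(S)_ℚ`. -/
def KillsAlbKer {S T : 𝒱.Obj} (Z : C.A (S.prod T)) : Prop :=
  ∀ α : C.A S, InAlbKer C α → C.act Z α = 0

variable {C}

/-- The self-correspondences of the surface `S` form a field modulo the correspondences which are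
homologically equivalent to degenerate ones. For complex surfaces with `p_g = 1` this is a theorem:
this algebra acts faithfully on the line `H^{2,0}(S)`, by the theorem of Lefschetz on classes of
type `(1, 1)`, and it has finite dimension over `ℚ` (for `p_g = 0` it is the zero ring, which is
allowed here). -/
structure EndIsField {K : Type w} [Field K] (H : WeilTheoryData.{u, v, w} C K) (S : 𝒱.Obj) :
    Prop where
  comm : ∀ Z W : C.A (S.prod S), C.Deg 2 Z → C.Deg 2 W →
    IsHomDegenerate H (C.comp Z W - C.comp W Z)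
  inv : ∀ Z : C.A (S.prod S), C.Deg 2 Z → IsHomDegenerate H Z ∨
    ∃ W : C.A (S.prod S), C.Deg 2 W ∧ IsHomDegenerate H (C.comp W Z - dg C S)

end Pool.Agent.Y152.AS
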