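import Pool.Agent.Y152.AS.Grp

/-!
# Graphs of morphisms to an abelian surface, and weights
-/

open CategoryTheory AlgebraicGeometry

universe u v w

namespace Pool.Agent.Y152.AS

open Pool.Agent.H914 Pool.Agent.H914.VarClass Pool.Agent.H914.VarClass.Obj Pool.Agent.W492.BB
  Pool.Agent.W550.Corr Pool.Agent.TH133

set_option linter.unusedSectionVars false

variable {k : Type u} [Field k] {𝒱 : VarClass k}

section point

variable {C : TheoryData.{u, v, 0} 𝒱 ℚ} [hC : IsChowProj C] {A : 𝒱.Obj} [GroupLaw A] {θ : C.A A}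
  {W X Y R : 𝒱.Obj}

/-- The class of the origin. -/
def Point (θ : C.A A) (q : ℚ) : Prop := ∀ X : 𝒱.Obj,
    C.down (Obj.lift (0 : X ⟶ A) (𝟙 X)) 1 = q • C.up (fst A X) (C.mul θ θ)

section

variable {q : ℚ} (hp : Point θ q)
include hp

/-- The class of the graph of `G`. -/
lemma graph_eq (G : X ⟶ A) :
    C.push (Obj.lift G (𝟙 X)) 1 =
      q • (eC θ (fst A X - snd A X ≫ G) * eC θ (fst A X - snd A X ≫ G)) := by
  let τ : A.prod X ⟶ A.prod X := Obj.lift (fst A X - snd A X ≫ G) (snd A X)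
  let τ' : A.prod X ⟶ A.prod X := Obj.lift (fst A X + snd A X ≫ G) (snd A X)
  have h1 : τ ≫ τ' = 𝟙 _ := by
    apply prod_ext
    · rw [Category.assoc, lift_fst, comp_add', lift_fst, ← Category.assoc, lift_snd,
        sub_add_cancel, Category.id_comp]
    · rw [Category.assoc, lift_snd, lift_snd, Category.id_comp]
  have h2 : τ' ≫ τ = 𝟙 _ := by
    apply prod_ext
    · rw [Category.assoc, lift_fst, comp_sub', lift_fst, ← Category.assoc, lift_snd,
        add_sub_cancel_right, Category.id_comp]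
    · rw [Category.assoc, lift_snd, lift_snd, Category.id_comp]
  have h3 : Obj.lift (0 : X ⟶ A) (𝟙 X) ≫ τ' = Obj.lift G (𝟙 X) := by
    apply prod_ext
    · rw [Category.assoc, lift_fst, comp_add', lift_fst, ← Category.assoc, lift_snd, zero_add,
        Category.id_comp, lift_fst]
    · rw [Category.assoc, lift_snd, lift_snd, lift_snd]
  rw [← h3, C.push_comp]
  have h4 := hp X
  change C.push (Obj.lift (0 : X ⟶ A) (𝟙 X)) 1 = q • C.pull (fst A X) (θ * θ) at h4
  rw [h4, ← pull_iso C τ τ' h1 h2, map_smul, ← C.pull_comp, lift_fst, map_mul]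
  rfl

/-- Evaluation of a class on `A × R` at `(G, r)`. -/
lemma eval_eq (ζ : C.A (A.prod R)) (G : X ⟶ A) (r : X ⟶ R) :
    C.pull (Obj.lift G r) ζ = q • C.push (snd A X)
      ((eC θ (fst A X - snd A X ≫ G) * eC θ (fst A X - snd A X ≫ G)) *
        C.pull (prodMap (𝟙 A) r) ζ) := by
  have e1 : Obj.lift G (𝟙 X) ≫ prodMap (𝟙 A) r = Obj.lift G r := by
    apply prod_ext <;> simp [comp_lift, prodMap]
  rw [← map_smul, ← smul_mul_assoc, ← graph_eq hp, ← C.proj_right, one_mul, ← C.push_comp,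
    lift_snd, C.push_id, ← C.pull_comp, e1]

end

/-- The multiplication by `n` on the first factor. -/
noncomputable def mu (A X : 𝒱.Obj) [GroupLaw A] (n : ℤ) : A.prod X ⟶ A.prod X :=
  prodMap (n • 𝟙 A) (𝟙 X)

lemma mu_fst (n : ℤ) : mu A X n ≫ fst A X = n • fst A X := by
  rw [mu, prodMap_fst, comp_zsmul', Category.comp_id]

lemma mu_snd (n : ℤ) : mu A X n ≫ snd A X = snd A X := by
  rw [mu, prodMap_snd, Category.comp_id]

section

variable {q : ℚ} (hp : Point θ q) (hc : Cube θ)
include hp hc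

lemma push_mu_one : ∃ r : ℚ, C.push (mu A X 2) 1 = r • 1 ∧ (16 - r) • (1 : C.A X) = 0 := by
  have hm := C.push_mem (mu A X 2) (C.one_mem (A.prod X))
  have e0 : (0 : ℤ) + 1 * (((A.prod X).dim : ℤ) - ((A.prod X).dim : ℤ)) = 0 := by ring
  rw [e0] at hm
  obtain ⟨r, hr⟩ := hC.gr_zero _ _ hm
  refine ⟨r, hr, ?_⟩
  set a : C.A (A.prod X) := eC θ (fst A X) * eC θ (fst A X) with ha
  have h1 : C.pull (mu A X 2) a = (16 : ℚ) • a := by
    rw [ha, map_mul, pull_eC, mu_fst, eC_zsmul hc, smul_mul_smul_comm, ← Int.cast_smul_eq_zsmul ℚ]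
    norm_num
  have h2 : C.push (mu A X 2) (C.pull (mu A X 2) a) = r • a := by
    have := C.proj_right (mu A X 2) 1 a
    rw [one_mul] at this
    rw [this]
    change C.push (mu A X 2) 1 * a = _
    rw [hr, smul_mul_assoc, one_mul]
  rw [h1, map_smul] at h2
  have h3 := congrArg (C.push (snd A X)) h2
  rw [map_smul, map_smul, ← C.push_comp, mu_snd] at h3
  have h4 : q • C.push (snd A X) a = 1 := by
    have h5 := graph_eq hp (0 : X ⟶ A)
    rw [comp_zero', sub_zero] at h5
    rw [← map_smul, ha, ← h5, ← C.push_comp, lift_snd, C.push_id]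
  have h5 := congrArg (fun t => q • t) h3
  simp only [smul_comm q _ (C.push (snd A X) a), h4] at h5
  rw [sub_smul, h5, sub_self]

/-- The push-forward to `X` of a class on `A × X` of weight different from `4` vanishes. -/
lemma push_eq_zero {c : ℚ} (h16 : c ≠ 16) {ξ : C.A (A.prod X)}
    (hξ : C.pull (mu A X 2) ξ = c • ξ) : C.push (snd A X) ξ = 0 := by
  obtain ⟨r, hr, h1⟩ := push_mu_one (X := X) hp hc
  have h2 : C.push (mu A X 2) (C.pull (mu A X 2) ξ) = r • ξ := by
    have := C.proj_right (mu A X 2) 1 ξ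
    rw [one_mul] at this
    rw [this]
    change C.push (mu A X 2) 1 * ξ = _
    rw [hr, smul_mul_assoc, one_mul]
  rw [hξ, map_smul] at h2
  have h3 := congrArg (C.push (snd A X)) h2
  rw [map_smul, map_smul, ← C.push_comp, mu_snd] at h3
  have h4 : (16 - r) • C.push (snd A X) ξ = 0 := by
    rw [← one_mul (C.push (snd A X) ξ), ← smul_mul_assoc, h1, zero_mul]
  have h5 : (16 - c) • C.push (snd A X) ξ = 0 := by
    rw [sub_smul, h3, ← sub_smul, h4]
  rcases smul_eq_zero.1 h5 with h6 | h6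
  · exact absurd (by linarith) h16
  · exact h6

end

end point

end Pool.Agent.Y152.AS
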