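import Pool.Agent.Y152.AS.Ops
import Pool.Agent.Y152.AS.Defs2

/-!
# Bloch's conjecture for correspondences generated by similitudes and antisymmetric ones
-/

open CategoryTheory AlgebraicGeometry

universe u v w

namespace Pool.Agent.Y152.AS

open Pool.Agent.H914 Pool.Agent.H914.VarClass Pool.Agent.H914.VarClass.Obj Pool.Agent.W492.BB
  Pool.Agent.W550.Corr Pool.Agent.TH133

set_option linter.unusedSectionVars false

variable {k : Type u} [Field k] {𝒱 : VarClass k} {C : TheoryData.{u, v, 0} 𝒱 ℚ}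
  [hC : IsChowProj C] {K : Type w} [Field K] {H : WeilTheoryData.{u, v, w} C K}
  [hH : IsWeilProj H] {A S T U V : 𝒱.Obj} {W X Y R Z : 𝒱.Obj}

lemma EndIsField.fieldMod (h : EndIsField H S) : FieldMod H S where
  comm Z W hZ hW := (h.comm Z W hZ hW).homDeg
  inv Z hZ := by
    rcases h.inv Z hZ with h1 | ⟨W, hW, h1⟩
    · exact Or.inl h1.homDeg
    · exact Or.inr ⟨W, hW, h1.homDeg⟩

lemma ph_degenerate (hS : S.dim = 2) {W : C.A (S.prod S)} (h : W ∈ C.gr (S.prod S) 2)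
    (hW : W ∈ degenerate C S S) : ph hS h = 0 := by
  rw [← ph_zero hS]
  refine ph_congr hS _ _ (fun α hα => ?_) (fun α hα => ?_)
  · rw [degenerate_act hS hW hα, C.act_zero]
  · rw [degenerate_act hS (degenerate_tp hW) hα, tp_zero, C.act_zero]

lemma ph_congr' (hS : S.dim = 2) {W W' : C.A (S.prod S)} (h : W = W')
    (hW : W ∈ C.gr (S.prod S) 2) (hW' : W' ∈ C.gr (S.prod S) 2) : ph hS hW = ph hS hW' := by
  subst h
  rfl

lemma isSimilitude_dg (hS : S.dim = 2) : IsSimilitude C (dg C S) := by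
  refine ⟨dg_mem2 hS, 1, one_ne_zero, fun β _ => ?_⟩
  rw [tp_dg, act_dg, act_dg, one_smul]

/-- The generators of the algebra. -/
def gens (hS : S.dim = 2) : Set (PP C S) :=
  {γ | ∃ N, Alg.Sim (P := PP C S) (swp C S) (QQ C hS) γ N} ∪
    {u | u ∈ QQ C hS ∧ swp C S u = -u}

lemma sim_self (hS : S.dim = 2) {Γ : C.A (S.prod S)} {N : ℚ} (hΓ : Γ ∈ C.gr (S.prod S) 2)
    (hN : N ≠ 0) (h : ∀ β ∈ albKer C S, C.act Γ (C.act (tp C Γ) β) = N • β) :
    Alg.Sim (P := PP C S) (swp C S) (QQ C hS) (ph hS hΓ) N where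
  mem := ⟨_, _, rfl⟩
  ne := hN
  eq := by
    rw [swp_ph, ← ph_comp, Algebra.algebraMap_eq_smul_one, ← ph_dg hS, ← ph_smul]
    refine ph_congr hS _ _ (fun α hα => ?_) (fun α hα => ?_)
    · rw [act_smul, act_dg, C.act_comp, h α hα]
    · rw [tp_smul, tp_dg, act_smul, act_dg, tp_comp C (ch_comm C), tp_tp, C.act_comp, h α hα]

section setup

variable (hS : S.dim = 2) (h : Alg.Setup (P := PP C S) (swp C S) (QQ C hS) (JJ H hS))
include h

/-- The composition of a similitude and of the transpose of a similitude. -/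
lemma sim_comp (hT : T.dim = 2) {Γ Δ : C.A (S.prod T)} (hΓ : IsSimilitude C Γ)
    (hΔ : IsSimilitude C Δ) (hm : C.comp Γ (tp C Δ) ∈ C.gr (S.prod S) 2) :
    ph hS hm ∈ Algebra.adjoin ℚ (gens (C := C) hS) := by
  obtain ⟨hΓ2, N, hN, hΓ⟩ := hΓ
  obtain ⟨hΔ2, M, hM, hΔ⟩ := hΔ
  replace hΓ : ∀ β ∈ albKer C T, C.act Γ (C.act (tp C Γ) β) = N • β :=
    fun β hβ => hΓ β (inAlbKer_iff.2 hβ)
  replace hΔ : ∀ β ∈ albKer C T, C.act Δ (C.act (tp C Δ) β) = M • β :=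
    fun β hβ => hΔ β (inAlbKer_iff.2 hβ)
  replace hΓ2 : Γ ∈ C.gr (S.prod T) 2 := hΓ2
  replace hΔ2 : Δ ∈ C.gr (S.prod T) 2 := hΔ2
  have tΓ : tp C Γ ∈ C.gr (T.prod S) 2 := tp_mem C hΓ2
  have tΔ : tp C Δ ∈ C.gr (T.prod S) 2 := tp_mem C hΔ2
  have hE : C.comp Δ (tp C Δ) ∈ C.gr (S.prod S) 2 := comp_mem2 hT hS hΔ2 tΔ
  set E : PP C S := ph hS hE with hEdef
  -- `E * E = M E`
  have h1 : E * E = algebraMap ℚ _ M * E := by
    rw [hEdef, ← ph_comp, ← Algebra.smul_def, ← ph_smul]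
    refine ph_congr hS _ _ (fun α hα => ?_) (fun α hα => ?_)
    · rw [act_smul, C.act_comp, C.act_comp, C.act_comp,
        hΔ _ (act_albKer hS hT hΔ2 hα), act_map_smul]
    · rw [tp_smul, tp_comp C (ch_comm C), tp_comp C (ch_comm C), tp_tp, act_smul, C.act_comp,
        C.act_comp, C.act_comp, hΔ _ (act_albKer hS hT hΔ2 hα), act_map_smul]
  -- `γ (s γ) = N E`
  have h2 : ph hS hm * swp C S (ph hS hm) = algebraMap ℚ _ N * E := by
    rw [swp_ph, hEdef, ← ph_comp, ← Algebra.smul_def, ← ph_smul]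
    refine ph_congr hS _ _ (fun α hα => ?_) (fun α hα => ?_)
    · rw [tp_comp C (ch_comm C), tp_tp, act_smul, C.act_comp, C.act_comp, C.act_comp,
        C.act_comp, hΓ _ (act_albKer hS hT hΔ2 hα), act_map_smul]
    · rw [tp_smul, tp_comp C (ch_comm C), tp_tp, tp_comp C (ch_comm C), tp_comp C (ch_comm C),
        tp_tp, act_smul, C.act_comp, C.act_comp, C.act_comp,
        C.act_comp, hΓ _ (act_albKer hS hT hΔ2 hα), act_map_smul]
  rcases h.sim_or_zero ⟨_, _, rfl⟩ hM hN h1 ⟨_, _, rfl⟩ h2 with h4 | h4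
  · -- the Albanese kernel of `T` is zero
    have h5 : ∀ β ∈ albKer C T, β = 0 := by
      intro β hβ
      have h6 := congrArg (fun x : PP C S => (x.1 ⟨C.act (tp C Δ) β,
        act_albKer hT hS tΔ hβ⟩).1) h4
      change C.act (C.comp Δ (tp C Δ)) (C.act (tp C Δ) β) = 0 at h6
      rw [C.act_comp, hΔ β hβ, act_map_smul] at h6
      have h7 := congrArg (C.act Δ) h6
      rw [act_map_smul, hΔ β hβ, C.act_map_zero, smul_smul] at h7
      exact (smul_eq_zero.1 h7).resolve_left (mul_ne_zero hM hM)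
    have h6 : ph hS hm = 0 := by
      rw [← ph_zero hS]
      refine ph_congr hS _ _ (fun α hα => ?_) (fun α hα => ?_)
      · rw [C.act_comp, h5 _ (act_albKer hS hT hΓ2 hα), C.act_map_zero, C.act_zero]
      · rw [tp_comp C (ch_comm C), tp_tp, tp_zero, C.act_comp,
          h5 _ (act_albKer hS hT hΔ2 hα), C.act_map_zero, C.act_zero]
    rw [h6]
    exact Subalgebra.zero_mem _
  · exact Algebra.subset_adjoin (Or.inl ⟨_, h4⟩)

lemma generated_main {Z : C.A (S.prod T)} (hZ : IsGenerated C Z) (hT : T.dim = 2) :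
    Z ∈ C.gr (S.prod T) 2 ∧ (∀ Δ : C.A (S.prod T), IsSimilitude C Δ →
      ∀ hm : C.comp Z (tp C Δ) ∈ C.gr (S.prod S) 2,
        ph hS hm ∈ Algebra.adjoin ℚ (gens (C := C) hS)) ∧
      ((∃ Δ : C.A (S.prod T), IsSimilitude C Δ) ∨ Z ∈ degenerate C S T) := by
  induction hZ with
  | similitude Γ hΓ =>
    exact ⟨hΓ.1, fun Δ hΔ hm => sim_comp hS h hT hΓ hΔ hm, Or.inl ⟨Γ, hΓ⟩⟩
  | antisym Z hZ =>
    have hZ' : Z ∈ C.gr (S.prod S) 2 := hZ
    have h0 : antisym C Z ∈ C.gr (S.prod S) 2 := Submodule.sub_mem _ hZ' (tp_mem C hZ')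
    refine ⟨h0, fun Δ hΔ hm => ?_, Or.inl ⟨dg C S, isSimilitude_dg hS⟩⟩
    obtain ⟨hΔ2, M, hM, hΔ⟩ := hΔ
    replace hΔ2 : Δ ∈ C.gr (S.prod S) 2 := hΔ2
    rw [ph_comp hS h0 (tp_mem C hΔ2), ← swp_ph hS hΔ2]
    refine Subalgebra.mul_mem _ (Algebra.subset_adjoin (Or.inl ⟨M, h.sim_s
      (sim_self hS hΔ2 hM fun β hβ => hΔ β (inAlbKer_iff.2 hβ))⟩)) (Algebra.subset_adjoin (Or.inr ⟨⟨_, _, rfl⟩, ?_⟩))
    rw [swp_ph, ← ph_neg]
    refine ph_congr' hS ?_ _ _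
    rw [antisym, tp_sub, tp_tp, neg_sub]
  | degenerate W hW =>
    refine ⟨degenerate_le hS hW.mem, fun Δ hΔ hm => ?_, Or.inr hW.mem⟩
    rw [ph_degenerate hS hm (degenerate_comp_right hT hW.mem (tp_mem C hΔ.1))]
    exact Subalgebra.zero_mem _
  | add Z W _ _ hZ hW =>
    obtain ⟨hZ1, hZ2, hZ3⟩ := hZ hT
    obtain ⟨hW1, hW2, hW3⟩ := hW hT
    refine ⟨Submodule.add_mem _ hZ1 hW1, fun Δ hΔ hm => ?_, ?_⟩
    · have e1 := comp_mem2 hT hS hZ1 (tp_mem C hΔ.1)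
      have e2 := comp_mem2 hT hS hW1 (tp_mem C hΔ.1)
      rw [ph_congr' hS (add_comp C Z W _) hm (Submodule.add_mem _ e1 e2), ph_add hS e1 e2]
      exact Subalgebra.add_mem _ (hZ2 Δ hΔ e1) (hW2 Δ hΔ e2)
    · rcases hZ3 with h1 | h1
      · exact Or.inl h1
      · rcases hW3 with h2 | h2
        · exact Or.inl h2
        · exact Or.inr (Submodule.add_mem _ h1 h2)
  | smul q Z _ hZ =>
    obtain ⟨hZ1, hZ2, hZ3⟩ := hZ hT
    refine ⟨Submodule.smul_mem _ q hZ1, fun Δ hΔ hm => ?_, ?_⟩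
    · have e1 := comp_mem2 hT hS hZ1 (tp_mem C hΔ.1)
      rw [ph_congr' hS (comp_smul_left _ _ _) hm (Submodule.smul_mem _ q e1), ph_smul hS e1]
      exact Subalgebra.smul_mem _ (hZ2 Δ hΔ e1) q
    · rcases hZ3 with h1 | h1
      · exact Or.inl h1
      · exact Or.inr (Submodule.smul_mem _ _ h1)
  | comp Z W _ _ hZ hW =>
    obtain ⟨hZ1, hZ2, -⟩ := hZ hS
    obtain ⟨hW1, hW2, hW3⟩ := hW hT
    refine ⟨comp_mem2 hS hS hZ1 hW1, fun Δ hΔ hm => ?_, ?_⟩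
    · have e2 := comp_mem2 hT hS hW1 (tp_mem C hΔ.1)
      rw [ph_congr' hS (comp_assoc C Z W _) hm (comp_mem2 hS hS hZ1 e2), ph_comp hS hZ1 e2]
      refine Subalgebra.mul_mem _ (hW2 Δ hΔ e2) ?_
      have e3 : C.comp Z (tp C (dg C S)) = Z := by rw [tp_dg, comp_dg]
      have e4 := hZ2 (dg C S) (isSimilitude_dg hS) (by rw [e3]; exact hZ1)
      rwa [ph_congr' hS e3 _ hZ1] at e4
    · rcases hW3 with h1 | h1
      · exact Or.inl h1
      · exact Or.inr (degenerate_comp_left hS hS h1 hZ1)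

theorem generated_act (hT : T.dim = 2) {Z : C.A (S.prod T)} (hZ : IsGenerated C Z)
    (hdeg : HomDeg H Z) {α : C.A S} (hα : α ∈ albKer C S) : C.act Z α = 0 := by
  obtain ⟨hZ1, hZ2, hZ3⟩ := generated_main hS h hZ hT
  rcases hZ3 with ⟨Δ, hΔ⟩ | h1
  · have e1 := comp_mem2 hT hS hZ1 (tp_mem C hΔ.1)
    have h2 := h.eq_zero ⟨_, e1, hdeg.comp_right hT (tp_mem C hΔ.1), rfl⟩ (hZ2 Δ hΔ e1)
    have h3 := congrArg (fun x : PP C S => (x.1 ⟨α, hα⟩).1) h2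
    change C.act (C.comp Z (tp C Δ)) α = 0 at h3
    rw [C.act_comp] at h3
    obtain ⟨hΔ2, M, hM, hΔ⟩ := hΔ
    have h4 := congrArg (C.act Δ) h3
    rw [hΔ _ (inAlbKer_iff.2 (act_albKer hS hT hZ1 hα)), C.act_map_zero] at h4
    exact (smul_eq_zero.1 h4).resolve_left hM
  · exact degenerate_act hS h1 hα

end setup

end Pool.Agent.Y152.AS
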