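import Pool.Agent.Y152.AS.Defs
import Pool.Agent.Y148.BB.Corr

/-!
# The quadratic map `x ↦ x^* θ` on `Hom(X, A)`
-/

open CategoryTheory AlgebraicGeometry

universe u v w

namespace Pool.Agent.Y152.AS

open Pool.Agent.H914 Pool.Agent.H914.VarClass Pool.Agent.H914.VarClass.Obj Pool.Agent.W492.BB
  Pool.Agent.W550.Corr Pool.Agent.TH133

set_option linter.unusedSectionVars false

variable {k : Type u} [Field k] {𝒱 : VarClass k}

section grp

variable {A : 𝒱.Obj} [GroupLaw A] {W X Y : 𝒱.Obj}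

lemma comp_add' (f : W ⟶ X) (x y : X ⟶ A) : f ≫ (x + y) = f ≫ x + f ≫ y :=
  GroupLaw.comp_add f x y

/-- Composition with a morphism on the left as a homomorphism. -/
noncomputable def preHom (f : W ⟶ X) : (X ⟶ A) →+ (W ⟶ A) :=
  AddMonoidHom.mk' (fun x => f ≫ x) (fun x y => comp_add' f x y)

lemma comp_zero' (f : W ⟶ X) : f ≫ (0 : X ⟶ A) = 0 := map_zero (preHom f)
lemma comp_neg' (f : W ⟶ X) (x : X ⟶ A) : f ≫ (-x) = -(f ≫ x) := map_neg (preHom f) x
lemma comp_sub' (f : W ⟶ X) (x y : X ⟶ A) : f ≫ (x - y) = f ≫ x - f ≫ y :=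
  map_sub (preHom f) x y
lemma comp_zsmul' (f : W ⟶ X) (n : ℤ) (x : X ⟶ A) : f ≫ (n • x) = n • (f ≫ x) :=
  map_zsmul (preHom f) n x

end grp

/-- The Chow ring as a commutative ring. -/
@[reducible] noncomputable def chRing (C : TheoryData.{u, v, 0} 𝒱 ℚ) [IsChowProj C] (X : 𝒱.Obj) :
    CommRing (C.A X) := { C.ring X with mul_comm := ch_comm C }

section cube

variable {C : TheoryData.{u, v, 0} 𝒱 ℚ} [hC : IsChowProj C] {A : 𝒱.Obj} [GroupLaw A] {θ : C.A A}
  {W X Y : 𝒱.Obj}

/-- The class `x^* θ`. -/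
noncomputable def eC (θ : C.A A) (x : X ⟶ A) : C.A X := C.pull x θ

/-- The bilinear class `β(x, y) = (x + y)^* θ - x^* θ - y^* θ`. -/
noncomputable def bC (θ : C.A A) (x y : X ⟶ A) : C.A X := eC θ (x + y) - eC θ x - eC θ y

lemma pull_eC (f : W ⟶ X) (x : X ⟶ A) : C.pull f (eC θ x) = eC θ (f ≫ x) :=
  (C.pull_comp f x θ).symm

lemma pull_bC (f : W ⟶ X) (x y : X ⟶ A) : C.pull f (bC θ x y) = bC θ (f ≫ x) (f ≫ y) := by
  rw [bC, bC, map_sub, map_sub, pull_eC, pull_eC, pull_eC, comp_add']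

lemma bC_comm (x y : X ⟶ A) : bC θ x y = bC θ y x := by
  rw [bC, bC, add_comm x y]; abel

/-- The parallelogram law. -/
def Cube (θ : C.A A) : Prop := ∀ (X : 𝒱.Obj) (x y : X ⟶ A),
    C.up (x + y) θ + C.up (x - y) θ = (2 : ℚ) • C.up x θ + (2 : ℚ) • C.up y θ

lemma two_smul_cancel {X : 𝒱.Obj} {a b : C.A X} (h : (2 : ℚ) • a = (2 : ℚ) • b) : a = b := by
  have := congrArg (fun t => (2 : ℚ)⁻¹ • t) h
  simpa [smul_smul] using this

section

variable (hc : Cube θ)
include hc

lemma par (x y : X ⟶ A) : eC θ (x + y) + eC θ (x - y) = (2 : ℚ) • eC θ x + (2 : ℚ) • eC θ y :=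
  hc X x y

lemma eC_zero : eC θ (0 : X ⟶ A) = 0 := by
  have h := par hc (0 : X ⟶ A) 0
  rw [add_zero, sub_zero] at h
  have h2 : (2 : ℚ) • eC θ (0 : X ⟶ A) = eC θ (0 : X ⟶ A) + eC θ (0 : X ⟶ A) := two_smul _ _
  rw [h2] at h
  have h3 : eC θ (0 : X ⟶ A) + eC θ (0 : X ⟶ A) = 0 := by
    have h4 := sub_eq_zero.2 h
    rw [← sub_sub, sub_self, zero_sub, neg_eq_zero] at h4
    exact h4
  rw [← h2] at h3
  exact two_smul_cancel (by rw [h3, smul_zero])

lemma eC_neg (x : X ⟶ A) : eC θ (-x) = eC θ x := by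
  have h := par hc (0 : X ⟶ A) x
  rw [zero_add, zero_sub, eC_zero hc, smul_zero, zero_add, two_smul] at h
  exact add_left_cancel h

lemma eC_sub (x y : X ⟶ A) : eC θ (x - y) = eC θ x + eC θ y - bC θ x y := by
  have h := par hc x y
  rw [two_smul, two_smul] at h
  have h2 : eC θ (x - y) = (eC θ x + eC θ x + (eC θ y + eC θ y)) - eC θ (x + y) := by
    rw [← h]; abel
  rw [h2, bC]; abel

lemma bC_neg_right (x y : X ⟶ A) : bC θ x (-y) = -bC θ x y := by
  have h := eC_sub hc x y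
  rw [bC, eC_neg hc, ← sub_eq_add_neg, h]; abel

lemma bC_zero_left (y : X ⟶ A) : bC θ 0 y = 0 := by
  rw [bC, zero_add, eC_zero hc]; abel

lemma bC_zero_right (x : X ⟶ A) : bC θ x 0 = 0 := by
  rw [bC, add_zero, eC_zero hc]; abel

/-- The polar form of a function satisfying the parallelogram law is additive. -/
lemma bC_add_right (x y z : X ⟶ A) : bC θ x (y + z) = bC θ x y + bC θ x z := by
  -- the standard argument
  have h1 := par hc (x + y) z
  have h2 := par hc (x - y) z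
  have h3 := par hc x (y + z)
  have h4 := par hc x (y - z)
  have h5 := par hc y z
  have h6 := par hc x y
  have h7 := par hc (x + z) y
  have h8 := par hc x z
  apply two_smul_cancel (C := C)
  simp only [bC, two_smul] at *
  have e1 : x + y + z = x + (y + z) := by abel
  have e2 : x + y - z = x + (y - z) := by abel
  have e3 : x - y + z = x - (y - z) := by abel
  have e4 : x - y - z = x - (y + z) := by abel
  have e5 : x + z + y = x + (y + z) := by abel
  have e6 : x + z - y = x - (y - z) := by abel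
  rw [e1, e2] at h1
  rw [e3, e4] at h2
  rw [e5, e6] at h7
  generalize eC θ (x + (y + z)) = a at *
  generalize eC θ (x + (y - z)) = b at *
  generalize eC θ (x - (y - z)) = c at *
  generalize eC θ (x - (y + z)) = d at *
  generalize eC θ (x + y) = p at *
  generalize eC θ (x - y) = p' at *
  generalize eC θ (y + z) = r at *
  generalize eC θ (y - z) = r' at *
  generalize eC θ (x + z) = s at *
  generalize eC θ (x - z) = s' at *
  generalize eC θ x = X1 at *
  generalize eC θ y = Y1 at *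
  generalize eC θ z = Z1 at *
  let _ := chRing C X
  linear_combination (exp := 1) h1 + h7 - h4 - 2 * h5

lemma bC_add_left (x y z : X ⟶ A) : bC θ (x + y) z = bC θ x z + bC θ y z := by
  rw [bC_comm, bC_add_right hc, bC_comm z x, bC_comm z y]

/-- `β(x, ·)` as a homomorphism. -/
noncomputable def bHom (x : X ⟶ A) : (X ⟶ A) →+ C.A X :=
  AddMonoidHom.mk' (fun y => bC θ x y) (fun y z => bC_add_right hc x y z)

lemma bC_zsmul_right (x y : X ⟶ A) (n : ℤ) : bC θ x (n • y) = n • bC θ x y :=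
  map_zsmul (bHom hc x) n y

lemma bC_zsmul_left (x y : X ⟶ A) (n : ℤ) : bC θ (n • x) y = n • bC θ x y := by
  rw [bC_comm, bC_zsmul_right hc, bC_comm]

lemma bC_self (x : X ⟶ A) : bC θ x x = (2 : ℚ) • eC θ x := by
  have h := eC_sub hc x x
  rw [sub_self, eC_zero hc] at h
  rw [two_smul]
  exact (sub_eq_zero.1 h.symm).symm

lemma eC_zsmul (x : X ⟶ A) (n : ℤ) : eC θ (n • x) = (n ^ 2 : ℤ) • eC θ x := by
  apply two_smul_cancel (C := C)
  rw [← bC_self hc, bC_zsmul_left hc, bC_zsmul_right hc, bC_self hc, smul_smul, pow_two,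
    smul_comm]

end

lemma eC_add (x y : X ⟶ A) : eC θ (x + y) = eC θ x + eC θ y + bC θ x y := by
  rw [bC]; abel

end cube

end Pool.Agent.Y152.AS
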