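import Pool.Agent.Y152.AS.Proj
import Pool.Agent.Y152.Pm.Lem
import Pool.Agent.Y110.Kf

/-!
# The part of type `(2, 2)` of the diagonal of an abelian surface is evenly finite-dimensional;
homologically trivial correspondences are nilpotent
-/

open CategoryTheory AlgebraicGeometry

universe u v w

namespace Pool.Agent.Y152.AS

open Pool.Agent.H914 Pool.Agent.H914.VarClass Pool.Agent.H914.VarClass.Obj Pool.Agent.W492.BB
  Pool.Agent.W550.Corr Pool.Agent.TH133 Pool.Agent.TH829.Prime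
open Pool.Agent.TH829.Kim (R0 toA ofA toA_mul toA_inj toA_mem toA_ofA ratFam gd gd_row Dies
  InRad mk mk_eq_zero trP trP_mk trP_comm RP trL_spec eta)

set_option linter.unusedSectionVars false

variable {k : Type u} [Field k] {𝒱 : VarClass k} {C : TheoryData.{u, v, 0} 𝒱 ℚ}
  [hC : IsChowProj C] {K : Type w} [Field K] {H : WeilTheoryData.{u, v, w} C K}
  [hH : IsWeilProj H] {A S T V : 𝒱.Obj} [GroupLaw A] {θ : C.A A} {W X Y R Z : 𝒱.Obj}

section five

variable {q : ℚ} (hp : Point θ q) (hc : Cube θ)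
include hp hc

/-- Classes of weight `5` vanish. -/
lemma eval_five (ζ : C.A (A.prod R)) (hζ : C.pull (mu A R 2) ζ = (32 : ℚ) • ζ) (G : X ⟶ A)
    (r : X ⟶ R) : C.pull (Obj.lift G r) ζ = 0 := by
  have hz := pull_mu_prodMap ζ r hζ
  rw [eval_eq hp, sq_expand hc]
  have k1 : C.push (snd A X) ((eC θ (fst A X) * eC θ (fst A X)) *
      C.pull (prodMap (𝟙 A) r) ζ) = 0 := by
    refine kill_aux hp hc (d := 16) hz ?_ (by norm_num)
    rw [map_mul, mu_e hp hc, smul_mul_smul_comm]; norm_num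
  have k2 : C.push (snd A X) ((eC θ (fst A X) * bC θ (fst A X) (snd A X ≫ G)) *
      C.pull (prodMap (𝟙 A) r) ζ) = 0 := by
    refine kill_aux hp hc (d := 8) hz ?_ (by norm_num)
    rw [map_mul, mu_e hp hc, mu_b hp hc, smul_mul_smul_comm]; norm_num
  have k3 : C.push (snd A X) ((bC θ (fst A X) (snd A X ≫ G) * bC θ (fst A X) (snd A X ≫ G) +
        (2 : ℚ) • (eC θ (fst A X) * eC θ (snd A X ≫ G))) *
      C.pull (prodMap (𝟙 A) r) ζ) = 0 := by
    refine kill_aux hp hc (d := 4) hz ?_ (by norm_num)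
    rw [map_add, map_smul, map_mul, map_mul, mu_r hp hc, mu_b hp hc, mu_e hp hc,
      smul_mul_smul_comm, smul_mul_smul_comm, smul_add, smul_comm (2 : ℚ)]; norm_num
  have k4 : C.push (snd A X) ((bC θ (fst A X) (snd A X ≫ G) * eC θ (snd A X ≫ G)) *
      C.pull (prodMap (𝟙 A) r) ζ) = 0 := by
    refine kill_aux hp hc (d := 2) hz ?_ (by norm_num)
    rw [map_mul, mu_r hp hc, mu_b hp hc, smul_mul_smul_comm]; norm_num
  have k5 : C.push (snd A X) ((eC θ (snd A X ≫ G) * eC θ (snd A X ≫ G)) *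
      C.pull (prodMap (𝟙 A) r) ζ) = 0 := by
    refine kill_aux hp hc (d := 1) hz ?_ (by norm_num)
    rw [map_mul, mu_r hp hc, smul_mul_smul_comm]; norm_num
  rw [add_mul, map_add, add_mul, map_add, add_mul, map_add, add_mul, map_add, k1,
    smul_mul_assoc (-2 : ℚ) (eC θ (fst A X) * _), map_smul, k2, smul_zero, k3,
    smul_mul_assoc, map_smul, k4, smul_zero, k5, add_zero, add_zero, add_zero, add_zero,
    smul_zero]

/-- Products of five classes `β(x, y_j)` vanish. -/
lemma row_zero (x : X ⟶ A) (y : Fin 5 → (X ⟶ A)) : ∏ j, bC θ x (y j) = 0 := by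
  set ζ : C.A (A.prod X) := ∏ j, bC θ (fst A X) (snd A X ≫ y j) with hζ
  have h1 : C.pull (mu A X 2) ζ = (32 : ℚ) • ζ := by
    rw [hζ, map_prod]
    have h2 : ∀ j, C.pull (mu A X 2) (bC θ (fst A X) (snd A X ≫ y j)) =
        algebraMap ℚ (C.A (A.prod X)) 2 * bC θ (fst A X) (snd A X ≫ y j) := by
      intro j
      rw [mu_b hp hc, Algebra.smul_def]
    rw [Finset.prod_congr rfl fun j _ => h2 j, Finset.prod_mul_distrib, Finset.prod_const,
      ← map_pow, ← Algebra.smul_def]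
    norm_num
  have h3 := eval_five hp hc ζ h1 x (𝟙 X)
  rw [hζ, map_prod] at h3
  rw [← h3]
  refine Finset.prod_congr rfl fun j _ => ?_
  rw [pull_bC, lift_fst, ← Category.assoc, lift_snd, Category.id_comp]

/-- The `18`-th exterior power of the part of type `(2, 2)` of the diagonal vanishes. -/
lemma alt_zero (x y : Fin 18 → (X ⟶ A)) :
    gd true (fun _ _ => pr θ q) x y = 0 := by
  rw [gd]
  have h1 : ∀ σ : Equiv.Perm (Fin 18),
      ∏ i, TH829.Kim.ev (pr θ q) (x i) (y (σ i)) = algebraMap ℚ (C.A X) (q ^ 18) *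
        ∏ i, (bC θ (x i) (y (σ i)) * bC θ (x i) (y (σ i)) +
          (algebraMap ℚ (C.A X) 2 * eC θ (x i)) * eC θ (y (σ i))) := by
    intro σ
    have h2 : ∀ i, TH829.Kim.ev (pr θ q) (x i) (y (σ i)) = algebraMap ℚ (C.A X) q *
        (bC θ (x i) (y (σ i)) * bC θ (x i) (y (σ i)) +
          (algebraMap ℚ (C.A X) 2 * eC θ (x i)) * eC θ (y (σ i))) := by
      intro i
      rw [TH829.Kim.ev, pull_pr q _ (x i) (y (σ i)) (lift_fst _ _) (lift_snd _ _),
        Algebra.smul_def, Algebra.smul_def, mul_assoc]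
    rw [Finset.prod_congr rfl fun i _ => h2 i, Finset.prod_mul_distrib, Finset.prod_const,
      Finset.card_univ, Fintype.card_fin, ← map_pow]
  simp only [h1]
  have h3 := Pm.det_sq_add_zero (R := C.A X) (b := fun i j => bC θ (x i) (y j))
    (u := fun i => algebraMap ℚ (C.A X) 2 * eC θ (x i)) (v := fun j => eC θ (y j)) (k := 4)
    (by simp) (fun S σ hS => Pm.per_zero (b := fun x y => bC θ x y)
      (fun x x' y => bC_add_left hc x x' y) (fun x y => row_zero hp hc x y) x y S σ hS)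
  have h4 : ∀ σ : Equiv.Perm (Fin 18), TH829.Kim.wt true σ •
      (algebraMap ℚ (C.A X) (q ^ 18) * ∏ i, (bC θ (x i) (y (σ i)) * bC θ (x i) (y (σ i)) +
          (algebraMap ℚ (C.A X) 2 * eC θ (x i)) * eC θ (y (σ i)))) =
      algebraMap ℚ (C.A X) (q ^ 18) * ((Equiv.Perm.sign σ : ℤ) •
        ∏ i, (bC θ (x i) (y (σ i)) * bC θ (x i) (y (σ i)) +
          (algebraMap ℚ (C.A X) 2 * eC θ (x i)) * eC θ (y (σ i)))) := by
    intro σ
    rw [mul_smul_comm]
    rfl
  rw [Finset.sum_congr rfl fun σ _ => h4 σ, ← Finset.mul_sum, h3, mul_zero]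

/-- Composition with `pr` on the left. -/
lemma comp_pr_left (ζ : C.A (A.prod A)) (hζ : C.pull (mu A A 2) ζ = (4 : ℚ) • ζ) :
    C.comp (pr θ q) ζ = ζ := by
  have h1 := eval_two hp hc ζ hζ (fst A A) (snd A A)
  rw [lift_eta, C.pull_id] at h1
  have h2 := TH829.Kim.ev_comp (pr θ q) ζ (fst A A) (snd A A)
  rw [TH829.Kim.ev_univ] at h2
  rw [h2]
  refine Eq.trans ?_ h1.symm
  -- exchange the factors
  have e0 : snd A (A.prod A) = sw A (A.prod A) ≫ fst (A.prod A) A := (lift_fst _ _).symm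
  have e1 : sw (A.prod A) A ≫ fst A (A.prod A) = snd (A.prod A) A := lift_fst _ _
  have e2 : sw (A.prod A) A ≫ snd A (A.prod A) = fst (A.prod A) A := lift_snd _ _
  have e3 : sw (A.prod A) A ≫ prodMap (𝟙 A) (snd A A) =
      Obj.lift (snd (A.prod A) A) (fst (A.prod A) A ≫ snd A A) := by
    apply prod_ext
    · rw [Category.assoc, prodMap_fst, Category.comp_id, e1, lift_fst]
    · rw [Category.assoc, prodMap_snd, ← Category.assoc, e2, lift_snd]
  rw [← map_smul]
  have e4 : ∀ w : C.A (A.prod (A.prod A)), C.push (snd A (A.prod A)) w =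
      C.push (fst (A.prod A) A) (C.pull (sw (A.prod A) A) w) := by
    intro w
    rw [pull_iso C (sw (A.prod A) A) (sw A (A.prod A)) sw_sw sw_sw, ← C.push_comp, ← e0]
  rw [e4]
  congr 1
  rw [map_smul, map_mul, map_add, map_smul, map_mul, map_mul, pull_bC, pull_eC, pull_eC, e1,
    ← Category.assoc, e2, ← C.pull_comp, e3, ← smul_mul_assoc]
  congr 1
  rw [TH829.Kim.ev, pull_pr q _ _ _ (lift_fst _ _) (lift_snd _ _), bC_comm,
    ch_comm C (eC θ (snd (A.prod A) A))]

lemma comp_pr_right (ζ : C.A (A.prod A)) (hζ : C.pull (mu A A 2) (tp C ζ) = (4 : ℚ) • tp C ζ) :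
    C.comp ζ (pr θ q) = ζ := by
  have h1 := comp_pr_left hp hc (tp C ζ) hζ
  have h2 := congrArg (tp C) h1
  rwa [tp_comp C (ch_comm C), tp_tp, tp_pr] at h2

end five

/-- Homologically trivial self-correspondences of type `(2, 2)` of an abelian surface are
nilpotent. -/
theorem nilp (hA : IsAbelianSurface H A θ) {ζ : C.A (A.prod A)} (hζ : ζ ∈ C.gr (A.prod A) A.dim)
    (hcl : H.cl ζ = 0) (h : Ty ζ) : IsNilpotent (ofA ζ hζ) := by
  obtain ⟨q, hp⟩ := hA.point
  have hc : Cube θ := hA.cube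
  have hd := hA.dim_eq
  have hpr : pr θ q ∈ C.gr (A.prod A) A.dim := by rw [hd]; exact pr_mem hA.deg q
  set x := ofA ζ hζ with hx
  set e := ofA (pr θ q) hpr with he
  have hw : C.pull (mu A A 2) (tp C ζ) = (4 : ℚ) • tp C ζ := by
    apply pull_mu_eq
    rw [(h.tp _ _ _ _).1]; norm_num
  have hex : e * x = x := by
    apply toA_inj
    rw [toA_mul, hx, he, toA_ofA, toA_ofA]
    exact comp_pr_right hp hc ζ hw
  have hP : IsAdequate C (ratFam C) := isAdequate_bot
  have hle : ratFam C ≤ numFam C := fun _ _ => bot_le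
  have hne : ∀ X : 𝒱.Obj, (1 : C.A X) ≠ 0 := Y110.one_ne H
  have h1 : ∀ Z : 𝒱.Obj, (1 : C.A Z) ∉ ratFam C Z 0 := by
    intro Z hZ
    exact hne Z ((Submodule.mem_bot ℚ).1 hZ)
  have hrad : InRad (trP hne _ hP hle A) (mk _ hP A x) := by
    intro γ
    obtain ⟨γ, rfl⟩ := Ideal.Quotient.mk_surjective γ
    change trP hne _ hP hle A (mk _ hP A x * mk _ hP A γ) = 0
    rw [← map_mul, trP_mk]
    have h2 : H.cl (toA (x * γ)) = 0 := by
      rw [toA_mul, cl_comp, hx, toA_ofA, hcl, comp_zero]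
    have h3 : H.cl (TH829.Kim.ev (toA (x * γ)) (𝟙 A) (𝟙 A)) = 0 := by
      rw [TH829.Kim.ev, H.cl_pull, h2, map_zero]
    exact hasDegree_uniq (hne A) (trL_spec (hne := hne) (x * γ))
      (hasDegree_zero_of_cl H (TH829.Kim.ev_mem (toA_mem _) _ _) h3)
  have hD : Dies (ratFam C) true e (17 + 1) := by
    intro W a b
    have h5 : gd true (fun _ _ => toA e) a b = 0 := alt_zero hp hc a b
    rw [h5]
    exact Submodule.zero_mem _
  have h4 := InRad.pow_eq_zero hrad (e := mk _ hP A e) (by rw [← map_mul, hex])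
    (by norm_num [eta]) (Dies.killed (hne := hne) (hP := hP) (hle := hle) h1 hD)
  refine ⟨17 + 1, ?_⟩
  rw [← map_pow] at h4
  apply toA_inj
  rw [map_zero]
  exact (Submodule.mem_bot ℚ).1 (mk_eq_zero.1 h4)

end Pool.Agent.Y152.AS
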