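import Pool.Agent.Y152.AS.Nil
import Pool.Agent.Y152.Alg.Sim

/-!
# The action of correspondences on the Albanese kernel: nilpotence and the ring with involution
-/

open CategoryTheory AlgebraicGeometry

universe u v w

namespace Pool.Agent.Y152.AS

open Pool.Agent.H914 Pool.Agent.H914.VarClass Pool.Agent.H914.VarClass.Obj Pool.Agent.W492.BB
  Pool.Agent.W550.Corr Pool.Agent.TH133
open Pool.Agent.TH829.Kim (R0 toA ofA toA_mul toA_inj toA_mem toA_ofA)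

set_option linter.unusedSectionVars false

variable {k : Type u} [Field k] {𝒱 : VarClass k} {C : TheoryData.{u, v, 0} 𝒱 ℚ}
  [hC : IsChowProj C] {K : Type w} [Field K] {H : WeilTheoryData.{u, v, w} C K}
  [hH : IsWeilProj H] {A S T U V : 𝒱.Obj} {W X Y R Z : 𝒱.Obj}

lemma comp_mem2 (hT : T.dim = 2) {Γ : C.A (S.prod T)} {Δ : C.A (T.prod U)}
    (hS : S.dim = 2) (hΓ : Γ ∈ C.gr (S.prod T) 2) (hΔ : Δ ∈ C.gr (T.prod U) 2) :
    C.comp Γ Δ ∈ C.gr (S.prod U) 2 := by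
  have := comp_mem C (e := 0) (e' := 0) (Γ := Γ) (Δ := Δ) (by rw [hS]; exact hΓ)
    (by rw [hT]; exact hΔ)
  exact deg_cast (by rw [hS]; norm_num) this

lemma degenerate_le (hS : S.dim = 2) : degenerate C S T ≤ C.gr (S.prod T) 2 := by
  refine Submodule.span_le.2 ?_
  rintro c ⟨Y, Γ, Δ, hY, hd | hd, rfl⟩
  · have := comp_mem C (e := -1) (e' := 1) (Γ := Γ) (Δ := Δ) (by rw [hS]; exact hd.1)
      (by rw [hY]; exact hd.2)
    exact deg_cast (by rw [hS]; norm_num) this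
  · have := comp_mem C (e := 0) (e' := 0) (Γ := Γ) (Δ := Δ) (by rw [hS]; exact hd.1)
      (by rw [hY]; exact hd.2)
    exact deg_cast (by rw [hS]; norm_num) this

lemma degenerate_comp_right (hT : T.dim = 2) {W : C.A (S.prod T)} (hW : W ∈ degenerate C S T)
    {Δ : C.A (T.prod U)} (hΔ : Δ ∈ C.gr (T.prod U) 2) : C.comp W Δ ∈ degenerate C S U := by
  induction hW using Submodule.span_induction with
  | mem x hx =>
    obtain ⟨Y, Γ, Θ, hY, hd, rfl⟩ := hx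
    rw [comp_assoc]
    refine Submodule.subset_span ⟨Y, Γ, C.comp Θ Δ, hY, ?_, rfl⟩
    rcases hd with ⟨h1, h2⟩ | ⟨h1, h2⟩
    · refine Or.inl ⟨h1, ?_⟩
      have := comp_mem C (e := 1) (e' := 0) (Γ := Θ) (Δ := Δ) (by rw [hY]; exact h2)
        (by rw [hT]; exact hΔ)
      exact deg_cast (by rw [hY]; norm_num) this
    · refine Or.inr ⟨h1, ?_⟩
      have := comp_mem C (e := 0) (e' := 0) (Γ := Θ) (Δ := Δ) (by rw [hY]; exact h2)
        (by rw [hT]; exact hΔ)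
      exact deg_cast (by rw [hY]; norm_num) this
  | zero => rw [zero_comp]; exact Submodule.zero_mem _
  | add x y _ _ hx hy => rw [add_comp]; exact Submodule.add_mem _ hx hy
  | smul c x _ hx => rw [comp_smul_left]; exact Submodule.smul_mem _ _ hx

lemma degenerate_comp_left (hS : S.dim = 2) (hT : T.dim = 2) {W : C.A (T.prod U)}
    (hW : W ∈ degenerate C T U) {Δ : C.A (S.prod T)} (hΔ : Δ ∈ C.gr (S.prod T) 2) :
    C.comp Δ W ∈ degenerate C S U := by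
  induction hW using Submodule.span_induction with
  | mem x hx =>
    obtain ⟨Y, Γ, Θ, hY, hd, rfl⟩ := hx
    rw [← comp_assoc]
    refine Submodule.subset_span ⟨Y, C.comp Δ Γ, Θ, hY, ?_, rfl⟩
    rcases hd with ⟨h1, h2⟩ | ⟨h1, h2⟩
    · refine Or.inl ⟨?_, h2⟩
      have := comp_mem C (e := 0) (e' := -1) (Γ := Δ) (Δ := Γ) (by rw [hS]; exact hΔ)
        (by rw [hT]; exact h1)
      exact deg_cast (by rw [hS]; norm_num) this
    · refine Or.inr ⟨?_, h2⟩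
      have := comp_mem C (e := 0) (e' := 0) (Γ := Δ) (Δ := Γ) (by rw [hS]; exact hΔ)
        (by rw [hT]; exact h1)
      exact deg_cast (by rw [hS]; norm_num) this
  | zero => rw [comp_zero]; exact Submodule.zero_mem _
  | add x y _ _ hx hy => rw [comp_add]; exact Submodule.add_mem _ hx hy
  | smul c x _ hx => rw [comp_smul_right]; exact Submodule.smul_mem _ _ hx

/-- The action of correspondences on the Albanese kernel. -/
noncomputable def ro (hS : S.dim = 2) (hT : T.dim = 2) :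
    ↥(C.gr (S.prod T) 2) →ₗ[ℚ] (↥(albKer C S) →ₗ[ℚ] ↥(albKer C T)) where
  toFun Γ :=
    { toFun := fun α => ⟨C.act Γ.1 α.1, act_albKer hS hT Γ.2 α.2⟩
      map_add' := fun a b => Subtype.ext (act_map_add C Γ.1 a.1 b.1)
      map_smul' := fun c a => Subtype.ext (act_map_smul C Γ.1 c a.1) }
  map_add' _ _ := LinearMap.ext fun _ => Subtype.ext (C.act_add _ _ _)
  map_smul' _ _ := LinearMap.ext fun _ => Subtype.ext (act_smul _ _ _)

lemma ro_apply (hS : S.dim = 2) (hT : T.dim = 2) {Γ : C.A (S.prod T)}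
    (hΓ : Γ ∈ C.gr (S.prod T) 2) (α : albKer C S) :
    ((ro hS hT ⟨Γ, hΓ⟩ α : albKer C T) : C.A T) = C.act Γ α.1 := rfl

lemma ro_comp (hS : S.dim = 2) (hT : T.dim = 2) (hU : U.dim = 2) {Γ : C.A (S.prod T)}
    (hΓ : Γ ∈ C.gr (S.prod T) 2) {Δ : C.A (T.prod U)} (hΔ : Δ ∈ C.gr (T.prod U) 2) :
    ro hS hU ⟨C.comp Γ Δ, comp_mem2 hT hS hΓ hΔ⟩ = ro hT hU ⟨Δ, hΔ⟩ ∘ₗ ro hS hT ⟨Γ, hΓ⟩ :=
  LinearMap.ext fun _ => Subtype.ext (C.act_comp _ _ _)

/-- Correspondences which are homologically equivalent to degenerate ones. -/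
def HomDeg (H : WeilTheoryData.{u, v, w} C K) {S T : 𝒱.Obj} (Z : C.A (S.prod T)) : Prop :=
  ∃ W ∈ degenerate C S T, H.cl Z = H.cl W

lemma IsHomDegenerate.homDeg {Z : C.A (S.prod T)} (h : IsHomDegenerate H Z) : HomDeg H Z := by
  obtain ⟨W, hW, h1⟩ := h
  exact ⟨W, hW.mem, h1⟩

lemma HomDeg.add {Z Z' : C.A (S.prod T)} (h : HomDeg H Z) (h' : HomDeg H Z') :
    HomDeg H (Z + Z') := by
  obtain ⟨W, hW, h1⟩ := h
  obtain ⟨W', hW', h2⟩ := h'
  exact ⟨W + W', Submodule.add_mem _ hW hW', by rw [map_add, map_add, h1, h2]⟩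

lemma HomDeg.smul {Z : C.A (S.prod T)} (h : HomDeg H Z) (c : ℚ) : HomDeg H (c • Z) := by
  obtain ⟨W, hW, h1⟩ := h
  refine ⟨c • W, Submodule.smul_mem _ _ hW, ?_⟩
  rw [Algebra.smul_def, Algebra.smul_def, map_mul, map_mul, h1]

lemma HomDeg.zero : HomDeg H (0 : C.A (S.prod T)) := ⟨0, Submodule.zero_mem _, rfl⟩

lemma HomDeg.of_mem {Z : C.A (S.prod T)} (h : Z ∈ degenerate C S T) : HomDeg H Z := ⟨Z, h, rfl⟩

lemma HomDeg.transp {Z : C.A (S.prod T)} (h : HomDeg H Z) : HomDeg H (tp C Z) := by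
  obtain ⟨W, hW, h1⟩ := h
  exact ⟨tp C W, degenerate_tp hW, by rw [cl_tp, cl_tp, h1]⟩

lemma HomDeg.comp_right (hT : T.dim = 2) {Z : C.A (S.prod T)} (h : HomDeg H Z)
    {Δ : C.A (T.prod U)} (hΔ : Δ ∈ C.gr (T.prod U) 2) : HomDeg H (C.comp Z Δ) := by
  obtain ⟨W, hW, h1⟩ := h
  exact ⟨_, degenerate_comp_right hT hW hΔ, by rw [cl_comp, cl_comp, h1]⟩

lemma HomDeg.comp_left (hS : S.dim = 2) (hT : T.dim = 2) {Z : C.A (T.prod U)} (h : HomDeg H Z)
    {Δ : C.A (S.prod T)} (hΔ : Δ ∈ C.gr (S.prod T) 2) : HomDeg H (C.comp Δ Z) := by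
  obtain ⟨W, hW, h1⟩ := h
  exact ⟨_, degenerate_comp_left hS hT hW hΔ, by rw [cl_comp, cl_comp, h1]⟩

lemma transfer {M N : Type*} [AddCommGroup M] [Module ℚ M] [AddCommGroup N] [Module ℚ N]
    (b : M →ₗ[ℚ] N) (b' : N →ₗ[ℚ] M) {c : ℚ} (hc : c ≠ 0) (hb : b ∘ₗ b' = c • LinearMap.id)
    (V : N →ₗ[ℚ] N) (h : IsNilpotent ((b' ∘ₗ V ∘ₗ b : M →ₗ[ℚ] M) : Module.End ℚ M)) :
    IsNilpotent (V : Module.End ℚ N) := by
  obtain ⟨n, hn⟩ := h
  have hb1 : ∀ x, b (b' x) = c • x := fun x => by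
    have := LinearMap.congr_fun hb x
    exact this
  have key : ∀ (m : ℕ) (x : N), ((b' ∘ₗ V ∘ₗ b : Module.End ℚ M) ^ m) (b' x) =
      c ^ m • b' ((V ^ m : Module.End ℚ N) x) := by
    intro m
    induction m with
    | zero => intro x; rw [pow_zero, pow_zero, pow_zero, one_smul]; rfl
    | succ m ih =>
      intro x
      rw [pow_succ', Module.End.mul_apply, ih, map_smul]
      change c ^ m • b' (V (b (b' _))) = _
      rw [hb1, map_smul, map_smul, smul_smul, pow_succ', pow_succ' (M := Module.End ℚ N),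
        Module.End.mul_apply]
      congr 1
      ring
  refine ⟨n, LinearMap.ext fun x => ?_⟩
  have h1 := key n x
  rw [hn] at h1
  have h2 := congrArg b h1
  rw [LinearMap.zero_apply, map_zero, map_smul, hb1, smul_smul] at h2
  exact (smul_eq_zero.1 h2.symm).resolve_left (mul_ne_zero (pow_ne_zero n hc) hc)

section surface

variable [GroupLaw A] {θ : C.A A}

/-- Homologically trivial correspondences of an abelian surface act nilpotently on the Albanese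
kernel. -/
lemma nil_surface (hA : IsAbelianSurface H A θ) {Z : C.A (A.prod A)}
    (hZ : Z ∈ C.gr (A.prod A) 2) (hcl : H.cl Z = 0) :
    IsNilpotent (ro hA.dim_eq hA.dim_eq ⟨Z, hZ⟩ : Module.End ℚ (albKer C A)) := by
  have hd := hA.dim_eq
  obtain ⟨q, hp⟩ := hA.point
  have hc : Cube θ := hA.cube
  have hθ := hA.deg
  have hpr : pr θ q ∈ C.gr (A.prod A) A.dim := by rw [hd]; exact pr_mem hθ q
  have hZ' : Z ∈ C.gr (A.prod A) A.dim := by rw [hd]; exact hZ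
  set ζ : C.A (A.prod A) := C.comp (pr θ q) (C.comp Z (pr θ q)) with hζ
  have h1 : ζ ∈ C.gr (A.prod A) A.dim := comp_mem0 C hpr (comp_mem0 C hZ' hpr)
  have h2 : H.cl ζ = 0 := by
    rw [hζ, cl_comp, cl_comp, hcl, zero_comp, comp_zero]
  have hact : ∀ α ∈ albKer C A, C.act ζ α = C.act Z α := by
    intro α hα
    rw [hζ, C.act_comp, C.act_comp, act_pr hc hd hθ hp hα,
        act_pr hc hd hθ hp (act_albKer hd hd hZ hα)]
  obtain ⟨n, hn⟩ := nilp hA h1 h2 (ty_comp hc q Z)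
  have key : ∀ (m : ℕ) (α : albKer C A),
      (((ro hd hd ⟨Z, hZ⟩ : Module.End ℚ (albKer C A)) ^ m) α).1 =
        C.act (toA (ofA ζ h1 ^ m)) α.1 := by
    intro m
    induction m with
    | zero =>
      intro α
      rw [pow_zero, pow_zero, TH829.Kim.toA_one, act_dg]
      rfl
    | succ m ih =>
      intro α
      rw [pow_succ, Module.End.mul_apply, ih, pow_succ, toA_mul, C.act_comp, toA_ofA,
        hact α.1 α.2]
      rfl
  refine ⟨n, LinearMap.ext fun α => Subtype.ext ?_⟩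
  rw [key, hn, map_zero, C.act_zero]
  rfl

/-- Correspondences of a surface dominated by an abelian surface which are homologically
equivalent to degenerate ones act nilpotently on the Albanese kernel. -/
lemma nil_dominated (hA : IsAbelianSurface H A θ) (hS : S.dim = 2) (b : C.A (A.prod S))
    (hb : C.Deg 2 b) {N : ℚ} (hN : N ≠ 0)
    (hdom : ∀ α ∈ albKer C S, C.act b (C.act (tp C b) α) = N • α) {Z : C.A (S.prod S)}
    (hZ : Z ∈ C.gr (S.prod S) 2) (hdeg : HomDeg H Z) :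
    IsNilpotent (ro hS hS ⟨Z, hZ⟩ : Module.End ℚ (albKer C S)) := by
  have hd := hA.dim_eq
  obtain ⟨W, hW, hZW⟩ := hdeg
  have hb' : b ∈ C.gr (A.prod S) 2 := hb
  have htb : tp C b ∈ C.gr (S.prod A) 2 := C.pull_mem _ hb
  have hV : Z - W ∈ C.gr (S.prod S) 2 := Submodule.sub_mem _ hZ (degenerate_le hS hW)
  have hVcl : H.cl (Z - W) = 0 := by rw [map_sub, hZW, sub_self]
  have h0 : ro hS hS ⟨Z, hZ⟩ = ro hS hS ⟨Z - W, hV⟩ := by
    refine LinearMap.ext fun α => Subtype.ext ?_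
    rw [ro_apply, ro_apply, C.act_sub, degenerate_act hS hW α.2, sub_zero]
  rw [h0]
  refine transfer (ro hd hS ⟨b, hb⟩) (ro hS hd ⟨tp C b, htb⟩) hN ?_ _ ?_
  · exact LinearMap.ext fun α => Subtype.ext (hdom _ α.2)
  · have h2 : H.cl (C.comp b (C.comp (Z - W) (tp C b))) = 0 := by
      rw [cl_comp, cl_comp, hVcl, zero_comp, comp_zero]
    have h3 := nil_surface hA (comp_mem2 hS hd hb' (comp_mem2 hS hS hV htb)) h2
    rw [ro_comp hd hS hd hb' (comp_mem2 hS hS hV htb), ro_comp hS hS hd hV htb] at h3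
    exact h3

end surface

section ring

open MulOpposite

variable (C) in
/-- The endomorphisms of the Albanese kernel and their opposites. -/
abbrev PP (S : 𝒱.Obj) : Type _ := Module.End ℚ (albKer C S) × (Module.End ℚ (albKer C S))ᵐᵒᵖ

variable (C) in
/-- The involution which exchanges the two components. -/
noncomputable def swp (S : 𝒱.Obj) : PP C S →ₗ[ℚ] PP C S where
  toFun x := (x.2.unop, op x.1)
  map_add' _ _ := rfl
  map_smul' _ _ := rfl

/-- The action of a correspondence and of its transpose on the Albanese kernel. -/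
noncomputable def ph (hS : S.dim = 2) {Γ : C.A (S.prod S)} (hΓ : Γ ∈ C.gr (S.prod S) 2) :
    PP C S := (ro hS hS ⟨Γ, hΓ⟩, op (ro hS hS ⟨tp C Γ, tp_mem C hΓ⟩))

lemma ph_congr (hS : S.dim = 2) {Γ Δ : C.A (S.prod S)} (hΓ : Γ ∈ C.gr (S.prod S) 2)
    (hΔ : Δ ∈ C.gr (S.prod S) 2) (h1 : ∀ α ∈ albKer C S, C.act Γ α = C.act Δ α)
    (h2 : ∀ α ∈ albKer C S, C.act (tp C Γ) α = C.act (tp C Δ) α) : ph hS hΓ = ph hS hΔ := by
  refine Prod.ext (LinearMap.ext fun α => Subtype.ext (h1 α.1 α.2)) ?_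
  refine congrArg op ?_
  exact LinearMap.ext fun α => Subtype.ext (h2 α.1 α.2)

lemma ph_add (hS : S.dim = 2) {Γ Δ : C.A (S.prod S)} (hΓ : Γ ∈ C.gr (S.prod S) 2)
    (hΔ : Δ ∈ C.gr (S.prod S) 2) :
    ph hS (Submodule.add_mem _ hΓ hΔ) = ph hS hΓ + ph hS hΔ := by
  refine Prod.ext (LinearMap.ext fun α => Subtype.ext (C.act_add _ _ _)) ?_
  refine congrArg op (LinearMap.ext fun α => Subtype.ext ?_)
  rw [ro_apply, tp_add, C.act_add]
  rfl

lemma ph_smul (hS : S.dim = 2) {Γ : C.A (S.prod S)} (hΓ : Γ ∈ C.gr (S.prod S) 2) (c : ℚ) :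
    ph hS (Submodule.smul_mem _ c hΓ) = c • ph hS hΓ := by
  refine Prod.ext (LinearMap.ext fun α => Subtype.ext (act_smul _ _ _)) ?_
  refine congrArg op (LinearMap.ext fun α => Subtype.ext ?_)
  rw [ro_apply, tp_smul, act_smul]
  rfl

lemma ph_sub (hS : S.dim = 2) {Γ Δ : C.A (S.prod S)} (hΓ : Γ ∈ C.gr (S.prod S) 2)
    (hΔ : Δ ∈ C.gr (S.prod S) 2) :
    ph hS (Submodule.sub_mem _ hΓ hΔ) = ph hS hΓ - ph hS hΔ := by
  refine Prod.ext (LinearMap.ext fun α => Subtype.ext (C.act_sub _ _ _)) ?_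
  refine congrArg op (LinearMap.ext fun α => Subtype.ext ?_)
  rw [ro_apply, tp_sub, C.act_sub]
  rfl

lemma ph_neg (hS : S.dim = 2) {Γ : C.A (S.prod S)} (hΓ : Γ ∈ C.gr (S.prod S) 2) :
    ph hS (Submodule.neg_mem _ hΓ) = -ph hS hΓ := by
  refine Prod.ext (LinearMap.ext fun α => Subtype.ext (act_neg _ _)) ?_
  refine congrArg op (LinearMap.ext fun α => Subtype.ext ?_)
  rw [ro_apply, tp, map_neg, act_neg]
  rfl

lemma ph_zero (hS : S.dim = 2) :
    ph hS (Γ := (0 : C.A (S.prod S))) (Submodule.zero_mem _) = 0 := by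
  refine Prod.ext (map_zero (ro hS hS)) ?_
  refine congrArg op (LinearMap.ext fun α => Subtype.ext ?_)
  rw [ro_apply, tp_zero, C.act_zero]
  rfl

lemma ph_comp (hS : S.dim = 2) {Γ Δ : C.A (S.prod S)} (hΓ : Γ ∈ C.gr (S.prod S) 2)
    (hΔ : Δ ∈ C.gr (S.prod S) 2) :
    ph hS (comp_mem2 hS hS hΓ hΔ) = ph hS hΔ * ph hS hΓ := by
  refine Prod.ext (ro_comp hS hS hS hΓ hΔ) ?_
  refine congrArg op (LinearMap.ext fun α => Subtype.ext ?_)
  rw [ro_apply, tp_comp C (ch_comm C), C.act_comp]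
  rfl

lemma dg_mem2 (hS : S.dim = 2) : dg C S ∈ C.gr (S.prod S) 2 :=
  deg_cast (by rw [hS]; norm_num) (dg_mem C S)

lemma ph_dg (hS : S.dim = 2) : ph hS (dg_mem2 hS (C := C) (S := S)) = 1 := by
  refine Prod.ext (LinearMap.ext fun α => Subtype.ext (act_dg C _)) ?_
  refine congrArg op (LinearMap.ext fun α => Subtype.ext ?_)
  rw [ro_apply, tp_dg, act_dg]
  rfl

lemma swp_ph (hS : S.dim = 2) {Γ : C.A (S.prod S)} (hΓ : Γ ∈ C.gr (S.prod S) 2) :
    swp C S (ph hS hΓ) = ph hS (tp_mem C hΓ) := by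
  refine Prod.ext rfl (congrArg op ?_)
  refine LinearMap.ext fun α => Subtype.ext ?_
  change C.act Γ α.1 = C.act (tp C (tp C Γ)) α.1
  rw [tp_tp]

variable (C) in
/-- The algebra of the actions of correspondences. -/
noncomputable def QQ (hS : S.dim = 2) : Submodule ℚ (PP C S) where
  carrier := {x | ∃ (Γ : C.A (S.prod S)) (hΓ : Γ ∈ C.gr (S.prod S) 2), ph hS hΓ = x}
  add_mem' := by
    rintro _ _ ⟨Γ, hΓ, rfl⟩ ⟨Δ, hΔ, rfl⟩
    exact ⟨_, _, ph_add hS hΓ hΔ⟩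
  zero_mem' := ⟨0, Submodule.zero_mem _, ph_zero hS⟩
  smul_mem' := by
    rintro c _ ⟨Γ, hΓ, rfl⟩
    exact ⟨_, _, ph_smul hS hΓ c⟩

variable (H) in
/-- The ideal of the correspondences which are homologically equivalent to degenerate ones. -/
noncomputable def JJ (hS : S.dim = 2) : Submodule ℚ (PP C S) where
  carrier := {x | ∃ (Γ : C.A (S.prod S)) (hΓ : Γ ∈ C.gr (S.prod S) 2), HomDeg H Γ ∧
    ph hS hΓ = x}
  add_mem' := by
    rintro _ _ ⟨Γ, hΓ, h1, rfl⟩ ⟨Δ, hΔ, h2, rfl⟩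
    exact ⟨_, _, h1.add h2, ph_add hS hΓ hΔ⟩
  zero_mem' := ⟨0, Submodule.zero_mem _, HomDeg.zero, ph_zero hS⟩
  smul_mem' := by
    rintro c _ ⟨Γ, hΓ, h1, rfl⟩
    exact ⟨_, _, h1.smul c, ph_smul hS hΓ c⟩

/-- The endomorphism algebra of the transcendental motive of the surface `S` modulo homological
equivalence is a field. -/
structure FieldMod (H : WeilTheoryData.{u, v, w} C K) (S : 𝒱.Obj) : Prop where
  comm : ∀ Z W : C.A (S.prod S), C.Deg 2 Z → C.Deg 2 W →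
    HomDeg H (C.comp Z W - C.comp W Z)
  inv : ∀ Z : C.A (S.prod S), C.Deg 2 Z → HomDeg H Z ∨
    ∃ W, C.Deg 2 W ∧ HomDeg H (C.comp W Z - dg C S)

variable [GroupLaw A] {θ : C.A A}

/-- The ring with involution and the nil ideal of a surface dominated by an abelian surface. -/
lemma setup (hA : IsAbelianSurface H A θ) (hS : S.dim = 2) (b : C.A (A.prod S))
    (hb : C.Deg 2 b) {N : ℚ} (hN : N ≠ 0)
    (hdom : ∀ α ∈ albKer C S, C.act b (C.act (tp C b) α) = N • α) (hF : FieldMod H S) :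
    Alg.Setup (P := PP C S) (swp C S) (QQ C hS) (JJ H hS) where
  s_mul _ _ := rfl
  s_s _ := rfl
  one_mem := ⟨_, _, ph_dg hS⟩
  mul_mem := by
    rintro _ _ ⟨Γ, hΓ, rfl⟩ ⟨Δ, hΔ, rfl⟩
    exact ⟨_, _, ph_comp hS hΔ hΓ⟩
  s_mem := by
    rintro _ ⟨Γ, hΓ, rfl⟩
    exact ⟨_, _, (swp_ph hS hΓ).symm⟩
  le := by
    rintro _ ⟨Γ, hΓ, _, rfl⟩
    exact ⟨_, _, rfl⟩
  left := by
    rintro _ _ ⟨Γ, hΓ, rfl⟩ ⟨Δ, hΔ, h1, rfl⟩
    exact ⟨_, _, h1.comp_right hS hΓ, ph_comp hS hΔ hΓ⟩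
  right := by
    rintro _ _ ⟨Δ, hΔ, h1, rfl⟩ ⟨Γ, hΓ, rfl⟩
    exact ⟨_, _, h1.comp_left hS hS hΓ, ph_comp hS hΓ hΔ⟩
  sym := by
    rintro _ ⟨Γ, hΓ, ⟨W, hW, h1⟩, rfl⟩
    rw [swp_ph]
    have h2 := main hA hS b hb hN hdom Γ W hΓ hW h1
    refine ph_congr hS _ _ (fun α hα => (h2 α hα).symm) (fun α hα => ?_)
    rw [tp_tp]
    exact h2 α hα
  nil := by
    rintro _ ⟨Γ, hΓ, h1, rfl⟩
    obtain ⟨n, hn⟩ := nil_dominated hA hS b hb hN hdom hΓ h1
    obtain ⟨m, hm⟩ := nil_dominated hA hS b hb hN hdom (tp_mem C hΓ) h1.transp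
    refine ⟨n + m, Prod.ext ?_ ?_⟩
    · change (ro hS hS ⟨Γ, hΓ⟩ : Module.End ℚ (albKer C S)) ^ (n + m) = 0
      rw [pow_add, hn, zero_mul]
    · change (op (ro hS hS ⟨tp C Γ, tp_mem C hΓ⟩) : (Module.End ℚ (albKer C S))ᵐᵒᵖ) ^ (n + m) = 0
      rw [← op_pow, pow_add, hm, mul_zero, op_zero]
  comm := by
    rintro _ _ ⟨Γ, hΓ, rfl⟩ ⟨Δ, hΔ, rfl⟩
    refine ⟨_, Submodule.sub_mem _ (comp_mem2 hS hS hΔ hΓ) (comp_mem2 hS hS hΓ hΔ),
      hF.comm Δ Γ hΔ hΓ, ?_⟩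
    rw [ph_sub hS (comp_mem2 hS hS hΔ hΓ) (comp_mem2 hS hS hΓ hΔ), ph_comp, ph_comp]
  inv := by
    rintro _ ⟨Γ, hΓ, rfl⟩
    rcases hF.inv Γ hΓ with h1 | ⟨W, hW, h1⟩
    · exact Or.inl ⟨_, _, h1, rfl⟩
    · refine Or.inr ⟨_, ⟨W, hW, rfl⟩, _,
        Submodule.sub_mem _ (comp_mem2 hS hS hW hΓ) (dg_mem2 hS), h1, ?_⟩
      rw [ph_sub hS (comp_mem2 hS hS hW hΓ) (dg_mem2 hS), ph_comp, ph_dg]

end ring

end Pool.Agent.Y152.AS
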