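import Pool.Agent.Y152.AS.Diag

/-!
# Homologically trivial classes of type `(2, 2)` on the square of an abelian surface
-/

open CategoryTheory AlgebraicGeometry

universe u v w

namespace Pool.Agent.Y152.AS

open Pool.Agent.H914 Pool.Agent.H914.VarClass Pool.Agent.H914.VarClass.Obj Pool.Agent.W492.BB
  Pool.Agent.W550.Corr Pool.Agent.TH133

set_option linter.unusedSectionVars false

variable {k : Type u} [Field k] {𝒱 : VarClass k}

section point

variable {C : TheoryData.{u, v, 0} 𝒱 ℚ} [hC : IsChowProj C] {A : 𝒱.Obj} [GroupLaw A] {θ : C.A A}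
  {W X Y R : 𝒱.Obj}

lemma pull_mu_prodMap (ζ : C.A (A.prod R)) (r : X ⟶ R) {c : ℚ}
    (hζ : C.pull (mu A R 2) ζ = c • ζ) :
    C.pull (mu A X 2) (C.pull (prodMap (𝟙 A) r) ζ) = c • C.pull (prodMap (𝟙 A) r) ζ := by
  have e1 : mu A X 2 ≫ prodMap (𝟙 A) r = prodMap (𝟙 A) r ≫ mu A R 2 := by
    apply prod_ext
    · rw [Category.assoc, Category.assoc, prodMap_fst, mu_fst, Category.comp_id, mu_fst,
        comp_zsmul', prodMap_fst, Category.comp_id]
    · rw [Category.assoc, Category.assoc, prodMap_snd, mu_snd, ← Category.assoc, mu_snd,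
        prodMap_snd]
  rw [← C.pull_comp, e1, C.pull_comp, hζ, map_smul]

section

variable {q : ℚ} (hp : Point θ q) (hc : Cube θ)
include hp hc

/-- The expansion of the class of the graph of `G`, multiplied by a class of weight `c`. -/
lemma kill_aux {c d : ℚ} {ξ w : C.A (A.prod X)} (hξ : C.pull (mu A X 2) ξ = c • ξ)
    (hw : C.pull (mu A X 2) w = d • w) (h : d * c ≠ 16) :
    C.push (snd A X) (w * ξ) = 0 := by
  apply push_eq_zero hp hc h
  rw [map_mul, hξ, hw, smul_mul_smul_comm]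

lemma mu_e : C.pull (mu A X 2) (eC θ (fst A X)) = (4 : ℚ) • eC θ (fst A X) := by
  rw [pull_eC, mu_fst, eC_zsmul hc, ← Int.cast_smul_eq_zsmul ℚ]
  norm_num

lemma mu_b (G : X ⟶ A) : C.pull (mu A X 2) (bC θ (fst A X) (snd A X ≫ G)) =
    (2 : ℚ) • bC θ (fst A X) (snd A X ≫ G) := by
  rw [pull_bC, mu_fst, ← Category.assoc, mu_snd, bC_zsmul_left hc, ← Int.cast_smul_eq_zsmul ℚ]
  norm_num

lemma mu_r (G : X ⟶ A) : C.pull (mu A X 2) (eC θ (snd A X ≫ G)) =
    (1 : ℚ) • eC θ (snd A X ≫ G) := by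
  rw [pull_eC, ← Category.assoc, mu_snd, one_smul]

omit hp in
lemma sq_expand (x y : X ⟶ A) : eC θ (x - y) * eC θ (x - y) =
    eC θ x * eC θ x + (-2 : ℚ) • (eC θ x * bC θ x y) +
      (bC θ x y * bC θ x y + (2 : ℚ) • (eC θ x * eC θ y)) +
      (-2 : ℚ) • (bC θ x y * eC θ y) + eC θ y * eC θ y := by
  rw [eC_sub hc]
  let _ := chRing C X
  generalize eC θ x = a
  generalize eC θ y = b
  generalize bC θ x y = c
  have e1 : ∀ t : C.A X, (-2 : ℚ) • t = -(t + t) := fun t => by rw [neg_smul, two_smul]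
  have e2 : ∀ t : C.A X, (2 : ℚ) • t = t + t := fun t => two_smul _ _
  rw [e1, e2, e1]
  ring

/-- Evaluation of a class of weight `2`. -/
lemma eval_two (ζ : C.A (A.prod R)) (hζ : C.pull (mu A R 2) ζ = (4 : ℚ) • ζ) (G : X ⟶ A)
    (r : X ⟶ R) :
    C.pull (Obj.lift G r) ζ = q • C.push (snd A X)
      ((bC θ (fst A X) (snd A X ≫ G) * bC θ (fst A X) (snd A X ≫ G) +
        (2 : ℚ) • (eC θ (fst A X) * eC θ (snd A X ≫ G))) * C.pull (prodMap (𝟙 A) r) ζ) := by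
  have hz := pull_mu_prodMap ζ r hζ
  rw [eval_eq hp, sq_expand hc]
  congr 1
  have k1 : C.push (snd A X) ((eC θ (fst A X) * eC θ (fst A X)) *
      C.pull (prodMap (𝟙 A) r) ζ) = 0 := by
    refine kill_aux hp hc (d := 16) hz ?_ (by norm_num)
    rw [map_mul, mu_e hp hc, smul_mul_smul_comm]; norm_num
  have k2 : C.push (snd A X) ((eC θ (fst A X) * bC θ (fst A X) (snd A X ≫ G)) *
      C.pull (prodMap (𝟙 A) r) ζ) = 0 := by
    refine kill_aux hp hc (d := 8) hz ?_ (by norm_num)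
    rw [map_mul, mu_e hp hc, mu_b hp hc, smul_mul_smul_comm]; norm_num
  have k3 : C.push (snd A X) ((bC θ (fst A X) (snd A X ≫ G) * eC θ (snd A X ≫ G)) *
      C.pull (prodMap (𝟙 A) r) ζ) = 0 := by
    refine kill_aux hp hc (d := 2) hz ?_ (by norm_num)
    rw [map_mul, mu_r hp hc, mu_b hp hc, smul_mul_smul_comm]; norm_num
  have k4 : C.push (snd A X) ((eC θ (snd A X ≫ G) * eC θ (snd A X ≫ G)) *
      C.pull (prodMap (𝟙 A) r) ζ) = 0 := by
    refine kill_aux hp hc (d := 1) hz ?_ (by norm_num)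
    rw [map_mul, mu_r hp hc, smul_mul_smul_comm]; norm_num
  rw [add_mul, map_add, k4, add_zero, add_mul, map_add, smul_mul_assoc, map_smul, k3, smul_zero,
    add_zero, add_mul, map_add, add_mul, map_add, k1, smul_mul_assoc, map_smul, k2, smul_zero,
    zero_add, zero_add]

/-- Evaluation of a class of weight `3`. -/
lemma eval_three (ζ : C.A (A.prod R)) (hζ : C.pull (mu A R 2) ζ = (8 : ℚ) • ζ) (G : X ⟶ A)
    (r : X ⟶ R) :
    C.pull (Obj.lift G r) ζ = q • C.push (snd A X)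
      (((-2 : ℚ) • (bC θ (fst A X) (snd A X ≫ G) * eC θ (snd A X ≫ G))) *
        C.pull (prodMap (𝟙 A) r) ζ) := by
  have hz := pull_mu_prodMap ζ r hζ
  rw [eval_eq hp, sq_expand hc]
  congr 1
  have k1 : C.push (snd A X) ((eC θ (fst A X) * eC θ (fst A X)) *
      C.pull (prodMap (𝟙 A) r) ζ) = 0 := by
    refine kill_aux hp hc (d := 16) hz ?_ (by norm_num)
    rw [map_mul, mu_e hp hc, smul_mul_smul_comm]; norm_num
  have k2 : C.push (snd A X) ((eC θ (fst A X) * bC θ (fst A X) (snd A X ≫ G)) *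
      C.pull (prodMap (𝟙 A) r) ζ) = 0 := by
    refine kill_aux hp hc (d := 8) hz ?_ (by norm_num)
    rw [map_mul, mu_e hp hc, mu_b hp hc, smul_mul_smul_comm]; norm_num
  have k3 : C.push (snd A X) ((bC θ (fst A X) (snd A X ≫ G) * bC θ (fst A X) (snd A X ≫ G) +
        (2 : ℚ) • (eC θ (fst A X) * eC θ (snd A X ≫ G))) *
      C.pull (prodMap (𝟙 A) r) ζ) = 0 := by
    refine kill_aux hp hc (d := 4) hz ?_ (by norm_num)
    rw [map_add, map_smul, map_mul, map_mul, mu_r hp hc, mu_b hp hc, mu_e hp hc,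
      smul_mul_smul_comm, smul_mul_smul_comm, smul_add, smul_comm (2 : ℚ)]; norm_num
  have k4 : C.push (snd A X) ((eC θ (snd A X ≫ G) * eC θ (snd A X ≫ G)) *
      C.pull (prodMap (𝟙 A) r) ζ) = 0 := by
    refine kill_aux hp hc (d := 1) hz ?_ (by norm_num)
    rw [map_mul, mu_r hp hc, smul_mul_smul_comm]; norm_num
  rw [add_mul, map_add, k4, add_zero, add_mul, map_add, add_mul, map_add, add_mul, map_add, k1,
    smul_mul_assoc (-2 : ℚ) (eC θ (fst A X) * _), map_smul, k2, smul_zero, k3,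
    zero_add, zero_add, zero_add]

/-- Evaluation of a class of weight `4`. -/
lemma eval_four (ζ : C.A (A.prod R)) (hζ : C.pull (mu A R 2) ζ = (16 : ℚ) • ζ) (G : X ⟶ A)
    (r : X ⟶ R) :
    C.pull (Obj.lift G r) ζ = q • C.push (snd A X)
      ((eC θ (snd A X ≫ G) * eC θ (snd A X ≫ G)) * C.pull (prodMap (𝟙 A) r) ζ) := by
  have hz := pull_mu_prodMap ζ r hζ
  rw [eval_eq hp, sq_expand hc]
  congr 1
  have k1 : C.push (snd A X) ((eC θ (fst A X) * eC θ (fst A X)) *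
      C.pull (prodMap (𝟙 A) r) ζ) = 0 := by
    refine kill_aux hp hc (d := 16) hz ?_ (by norm_num)
    rw [map_mul, mu_e hp hc, smul_mul_smul_comm]; norm_num
  have k2 : C.push (snd A X) ((eC θ (fst A X) * bC θ (fst A X) (snd A X ≫ G)) *
      C.pull (prodMap (𝟙 A) r) ζ) = 0 := by
    refine kill_aux hp hc (d := 8) hz ?_ (by norm_num)
    rw [map_mul, mu_e hp hc, mu_b hp hc, smul_mul_smul_comm]; norm_num
  have k3 : C.push (snd A X) ((bC θ (fst A X) (snd A X ≫ G) * bC θ (fst A X) (snd A X ≫ G) +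
        (2 : ℚ) • (eC θ (fst A X) * eC θ (snd A X ≫ G))) *
      C.pull (prodMap (𝟙 A) r) ζ) = 0 := by
    refine kill_aux hp hc (d := 4) hz ?_ (by norm_num)
    rw [map_add, map_smul, map_mul, map_mul, mu_r hp hc, mu_b hp hc, mu_e hp hc,
      smul_mul_smul_comm, smul_mul_smul_comm, smul_add, smul_comm (2 : ℚ)]; norm_num
  have k4 : C.push (snd A X) ((bC θ (fst A X) (snd A X ≫ G) * eC θ (snd A X ≫ G)) *
      C.pull (prodMap (𝟙 A) r) ζ) = 0 := by
    refine kill_aux hp hc (d := 2) hz ?_ (by norm_num)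
    rw [map_mul, mu_r hp hc, mu_b hp hc, smul_mul_smul_comm]; norm_num
  rw [add_mul, map_add, add_mul, map_add, add_mul, map_add, add_mul, map_add, k1,
    smul_mul_assoc (-2 : ℚ) (eC θ (fst A X) * _), map_smul, k2, smul_zero, k3,
    smul_mul_assoc, map_smul, k4, smul_zero,
    zero_add, zero_add, zero_add, zero_add]

end

/-- The value of a class on `A × A` at the pair `(x, y)`. -/
noncomputable def ev (ζ : C.A (A.prod A)) (x y : X ⟶ A) : C.A X := C.pull (Obj.lift x y) ζ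

lemma pull_ev (ζ : C.A (A.prod A)) (f : W ⟶ X) (x y : X ⟶ A) :
    C.pull f (ev ζ x y) = ev ζ (f ≫ x) (f ≫ y) := by
  rw [ev, ← C.pull_comp, comp_lift]; rfl

lemma ev_self (ζ : C.A (A.prod A)) : ev ζ (fst A A) (snd A A) = ζ := by
  rw [ev, lift_eta, C.pull_id]

lemma ev_tp (ζ : C.A (A.prod A)) (x y : X ⟶ A) : ev (tp C ζ) x y = ev ζ y x := by
  have e1 : Obj.lift x y ≫ sw A A = Obj.lift y x := by
    apply prod_ext <;> simp [sw, comp_lift]
  rw [ev, tp, ← C.pull_comp, e1]; rfl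

/-- Classes of type `(2, 2)`. -/
def Ty (ζ : C.A (A.prod A)) : Prop := ∀ (X : 𝒱.Obj) (x y : X ⟶ A) (n : ℤ),
  ev ζ (n • x) y = ((n : ℚ) ^ 2) • ev ζ x y ∧ ev ζ x (n • y) = ((n : ℚ) ^ 2) • ev ζ x y

lemma Ty.tp {ζ : C.A (A.prod A)} (h : Ty ζ) : Ty (tp C ζ) := fun X x y n => by
  rw [ev_tp, ev_tp, ev_tp]
  exact ⟨(h X y x n).2, (h X y x n).1⟩

lemma pull_mu_eq (ζ : C.A (A.prod A)) {c : ℚ} (n : ℤ)
    (h : ev ζ (n • fst A A) (snd A A) = c • ev ζ (fst A A) (snd A A)) :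
    C.pull (mu A A n) ζ = c • ζ := by
  have e1 : mu A A n = Obj.lift (n • fst A A) (snd A A) := by
    apply prod_ext
    · rw [mu_fst, lift_fst]
    · rw [mu_snd, lift_snd]
  rw [e1]
  change ev ζ _ _ = _
  rw [h, ev_self]

/-- The middle term in the expansion of `ζ (t x + y, y)`. -/
noncomputable def mid (θ : C.A A) (q : ℚ) (ζ : C.A (A.prod A)) (x y : X ⟶ A) : C.A X :=
  q • C.push (snd A X) (((2 : ℚ) • (bC θ (fst A X) (snd A X ≫ x) * bC θ (fst A X) (snd A X ≫ y) +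
    eC θ (fst A X) * bC θ (snd A X ≫ x) (snd A X ≫ y))) * C.pull (prodMap (𝟙 A) y) ζ)

section

variable {q : ℚ} (hp : Point θ q) (hc : Cube θ)
include hp hc

lemma ev_shear {ζ : C.A (A.prod A)} (h : Ty ζ) (x y : X ⟶ A) (t : ℤ) :
    ev ζ (t • x + y) y = ((t : ℚ) ^ 2) • ev ζ x y + (t : ℚ) • mid θ q ζ x y + ev ζ y y := by
  have hz : C.pull (mu A A 2) ζ = (4 : ℚ) • ζ := by
    apply pull_mu_eq
    rw [(h _ _ _ _).1]; norm_num
  rw [ev, eval_two hp hc ζ hz, ev, eval_two hp hc ζ hz, ev, eval_two hp hc ζ hz, mid]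
  rw [smul_comm _ q, smul_comm _ q, ← smul_add, ← smul_add,
    ← map_smul (C.push (snd A X)) ((t : ℚ) ^ 2), ← map_smul (C.push (snd A X)) (t : ℚ), ← map_add,
    ← map_add]
  congr 2
  rw [comp_add', comp_zsmul', bC_add_right hc, bC_zsmul_right hc, eC_add, eC_zsmul hc,
    bC_zsmul_left hc, ← Int.cast_smul_eq_zsmul ℚ, ← Int.cast_smul_eq_zsmul ℚ,
    ← Int.cast_smul_eq_zsmul ℚ]
  push_cast
  generalize bC θ (fst A X) (snd A X ≫ x) = a
  generalize bC θ (fst A X) (snd A X ≫ y) = b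
  generalize bC θ (snd A X ≫ x) (snd A X ≫ y) = c
  generalize eC θ (fst A X) = d
  generalize eC θ (snd A X ≫ x) = e
  generalize eC θ (snd A X ≫ y) = f
  generalize C.pull (prodMap (𝟙 A) y) ζ = g
  let _ := chRing C (A.prod X)
  simp only [Algebra.smul_def, map_pow]
  generalize algebraMap ℚ (C.A (A.prod X)) (t : ℚ) = T
  have e2 : algebraMap ℚ (C.A (A.prod X)) 2 = 2 := map_ofNat _ 2
  rw [e2]
  ring

lemma mid_eq {ζ : C.A (A.prod A)} (h : Ty ζ) (x y : X ⟶ A) :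
    mid θ q ζ x y = ev ζ (x + y) y - ev ζ x y - ev ζ y y := by
  have := ev_shear hp hc h x y 1
  rw [one_smul, Int.cast_one, one_pow, one_smul, one_smul] at this
  rw [this]; abel

end

end point

section hom

variable {C : TheoryData.{u, v, 0} 𝒱 ℚ} [hC : IsChowProj C] {K : Type w} [Field K]
  {H : WeilTheoryData.{u, v, w} C K} [hH : IsWeilProj H] {A : 𝒱.Obj} [GroupLaw A] {θ : C.A A}
  {W X Y R : 𝒱.Obj}

lemma zsmul_deg {X : 𝒱.Obj} {i : ℤ} {a : C.A X} (ha : a ∈ C.gr X i) (c : ℚ) :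
    c • a ∈ C.gr X i := Submodule.smul_mem _ c ha

lemma eC_mem (hθ : C.Deg 1 θ) (x : X ⟶ A) : eC θ x ∈ C.gr X 1 := C.pull_mem x hθ

lemma bC_mem (hθ : C.Deg 1 θ) (x y : X ⟶ A) : bC θ x y ∈ C.gr X 1 :=
  Submodule.sub_mem _ (Submodule.sub_mem _ (eC_mem hθ _) (eC_mem hθ _)) (eC_mem hθ _)

lemma mid_mem (hd : A.dim = 2) (hθ : C.Deg 1 θ) (q : ℚ) {ζ : C.A (A.prod A)}
    (hζ : ζ ∈ C.gr (A.prod A) 2) (x y : X ⟶ A) : mid θ q ζ x y ∈ C.gr X 2 := by
  refine Submodule.smul_mem _ _ ?_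
  have h1 : (2 : ℚ) • (bC θ (fst A X) (snd A X ≫ x) * bC θ (fst A X) (snd A X ≫ y) +
    eC θ (fst A X) * bC θ (snd A X ≫ x) (snd A X ≫ y)) ∈ C.gr (A.prod X) (1 + 1) :=
    Submodule.smul_mem _ _ (Submodule.add_mem _ (C.mul_mem (bC_mem hθ _ _) (bC_mem hθ _ _))
      (C.mul_mem (eC_mem hθ _) (bC_mem hθ _ _)))
  have h2 := C.push_mem (snd A X) (C.mul_mem h1 (C.pull_mem (prodMap (𝟙 A) y) hζ))
  have e1 : (1 : ℤ) + 1 + 2 + 1 * ((X.dim : ℤ) - ((A.prod X).dim : ℤ)) = 2 := by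
    rw [dim_prod, hd]; push_cast; ring
  rwa [e1] at h2

lemma cl_smul (c : ℚ) (a : C.A X) (h : H.cl a = 0) : H.cl (c • a) = 0 := by
  rw [Algebra.smul_def, map_mul, h, mul_zero]

lemma mid_cl (q : ℚ) {ζ : C.A (A.prod A)} (hζ : H.cl ζ = 0) (x y : X ⟶ A) :
    H.cl (mid θ q ζ x y) = 0 := by
  refine cl_smul _ _ ?_
  rw [H.cl_push, map_mul, H.cl_pull, hζ, map_zero, mul_zero, map_zero]

end hom

end Pool.Agent.Y152.AS
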