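import Pool.Agent.Y152.AS.Gen

/-!
# The square of the ideal of homologically degenerate correspondences
-/

open CategoryTheory AlgebraicGeometry

universe u v w

namespace Pool.Agent.Y152.AS

open Pool.Agent.H914 Pool.Agent.H914.VarClass Pool.Agent.H914.VarClass.Obj Pool.Agent.W492.BB
  Pool.Agent.W550.Corr Pool.Agent.TH133

set_option linter.unusedSectionVars false

variable {k : Type u} [Field k] {𝒱 : VarClass k} {C : TheoryData.{u, v, 0} 𝒱 ℚ}
  [hC : IsChowProj C] {K : Type w} [Field K] {H : WeilTheoryData.{u, v, w} C K}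
  [hH : IsWeilProj H] {A S T U V : 𝒱.Obj}

lemma swp_antisym (hS : S.dim = 2) {Y : C.A (S.prod S)} (hY : Y ∈ C.gr (S.prod S) 2)
    (h0 : antisym C Y ∈ C.gr (S.prod S) 2) : swp C S (ph hS h0) = -ph hS h0 := by
  rw [swp_ph, ← ph_neg]
  refine ph_congr' hS ?_ _ _
  rw [antisym, tp_sub, tp_tp, neg_sub]

theorem sq_act (hS : S.dim = 2)
    (h : Alg.Setup (P := PP C S) (swp C S) (QQ C hS) (JJ H hS)) (hE : EndIsField H S)
    {Y Z W : C.A (S.prod S)} (hY : C.Deg 2 Y) (hYd : ¬ IsHomDegenerate H (antisym C Y))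
    (hZ : C.Deg 2 Z) (hZd : HomDeg H Z) (hW : C.Deg 2 W) (hWd : HomDeg H W)
    {α : C.A S} (hα : α ∈ albKer C S) : C.act W (C.act Z α) = 0 := by
  have h0 : antisym C Y ∈ C.gr (S.prod S) 2 := Submodule.sub_mem _ hY (tp_mem C hY)
  obtain ⟨V, hV, hVd⟩ := (hE.inv (antisym C Y) h0).resolve_left hYd
  have hV' : V ∈ C.gr (S.prod S) 2 := hV
  have h1 : ph hS h0 * ph hS hV' - 1 ∈ JJ H hS := by
    refine ⟨_, Submodule.sub_mem _ (comp_mem2 hS hS hV' h0) (dg_mem2 hS), hVd.homDeg, ?_⟩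
    rw [ph_sub hS (comp_mem2 hS hS hV' h0) (dg_mem2 hS), ph_comp, ph_dg]
  have h2 := h.mul_eq_zero (u := ph hS h0) (y := ph hS hV') (j := ph hS (Γ := W) hW)
    (j' := ph hS (Γ := Z) hZ) ⟨_, _, rfl⟩ (swp_antisym hS hY h0) h1 ⟨_, _, hWd, rfl⟩
    ⟨_, _, hZd, rfl⟩
  have h3 := congrArg (fun x : PP C S => (x.1 ⟨α, hα⟩).1) h2
  exact h3

end Pool.Agent.Y152.AS
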