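import Pool.Agent.Y152.AS.Shear

/-!
# Homologically trivial classes of type `(2, 2)` on the square of an abelian surface are symmetric
-/

open CategoryTheory AlgebraicGeometry

universe u v w

namespace Pool.Agent.Y152.AS

open Pool.Agent.H914 Pool.Agent.H914.VarClass Pool.Agent.H914.VarClass.Obj Pool.Agent.W492.BB
  Pool.Agent.W550.Corr Pool.Agent.TH133

set_option linter.unusedSectionVars false

variable {k : Type u} [Field k] {𝒱 : VarClass k} {C : TheoryData.{u, v, 0} 𝒱 ℚ}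
  [hC : IsChowProj C] {K : Type w} [Field K] {H : WeilTheoryData.{u, v, w} C K}
  [hH : IsWeilProj H] {A : 𝒱.Obj} [GroupLaw A] {θ : C.A A} {W X Y R : 𝒱.Obj}

/-- The multiplication by `-1` on `A × A`. -/
noncomputable def sg (A : 𝒱.Obj) [GroupLaw A] : A.prod A ⟶ A.prod A := prodMap (-𝟙 A) (-𝟙 A)

lemma sg_fst : sg A ≫ fst A A = -fst A A := by
  rw [sg, prodMap_fst, comp_neg', Category.comp_id]

lemma sg_snd : sg A ≫ snd A A = -snd A A := by
  rw [sg, prodMap_snd, comp_neg', Category.comp_id]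

lemma sg_sg : sg A ≫ sg A = 𝟙 _ := by
  apply prod_ext
  · rw [Category.assoc, sg_fst, comp_neg', sg_fst, neg_neg, Category.id_comp]
  · rw [Category.assoc, sg_snd, comp_neg', sg_snd, neg_neg, Category.id_comp]

lemma eq_zero_of_neg {X : 𝒱.Obj} {a : C.A X} (h : a = -a) : a = 0 := by
  apply two_smul_cancel (C := C)
  rw [smul_zero, two_smul]
  nth_rw 2 [h]
  exact add_neg_cancel a

/-- Push-forward of a class on `A × (A × A)` and the multiplication by `-1` on the base. -/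
lemma pull_sg_push (w : C.A (A.prod (A.prod A))) :
    C.pull (sg A) (C.push (snd A (A.prod A)) w) =
      C.push (snd A (A.prod A)) (C.pull (prodMap (𝟙 A) (sg A)) w) := by
  have h2 : prodMap (𝟙 A) (sg A) ≫ prodMap (𝟙 A) (sg A) = 𝟙 _ := by
    apply prod_ext
    · rw [Category.assoc, prodMap_fst, Category.comp_id, prodMap_fst, Category.comp_id,
        Category.id_comp]
    · rw [Category.assoc, prodMap_snd, ← Category.assoc, prodMap_snd, Category.assoc, sg_sg,
        Category.comp_id, Category.id_comp]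
  rw [pull_iso C (sg A) (sg A) sg_sg sg_sg, pull_iso C _ _ h2 h2, ← C.push_comp, ← C.push_comp,
    prodMap_snd]

section raise

variable {q : ℚ} (hp : Point θ q) (hc : Cube θ) (hd : A.dim = 2) (hθ : C.Deg 1 θ)
  (hpic : ∀ D : C.A (A.prod A), C.Deg 1 D → H.cl D = 0 →
    C.up (prodMap (-𝟙 A) (-𝟙 A)) D = -D)
include hp hc hd hθ hpic

/-- There are no homologically trivial classes of type `(3, 1)` in `CH^2(A × A)`. -/
lemma raise {ω : C.A (A.prod A)} (hω : ω ∈ C.gr (A.prod A) 2) (hcl : H.cl ω = 0)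
    (h8 : C.pull (mu A A 2) ω = (8 : ℚ) • ω) (h1 : C.pull (prodMap (𝟙 A) (-𝟙 A)) ω = -ω) :
    ω = 0 := by
  set η : C.A (A.prod A) := C.push (snd A (A.prod A))
    (((-2 : ℚ) • bC θ (fst A (A.prod A)) (snd A (A.prod A) ≫ fst A A)) *
      C.pull (prodMap (𝟙 A) (snd A A)) ω) with hη
  have k1 : ω = q • (eC θ (fst A A) * η) := by
    have h2 := eval_three hp hc ω h8 (fst A A) (snd A A)
    rw [lift_eta, C.pull_id] at h2
    refine h2.trans ?_
    congr 1
    rw [hη, ← C.proj_left, pull_eC]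
    congr 1
    rw [← smul_mul_assoc, ch_comm C _ (eC θ (snd A (A.prod A) ≫ fst A A)), mul_assoc]
  have k2 : η ∈ C.gr (A.prod A) 1 := by
    have h2 := C.push_mem (snd A (A.prod A)) (C.mul_mem
      (zsmul_deg (bC_mem hθ (fst A (A.prod A)) (snd A (A.prod A) ≫ fst A A)) (-2 : ℚ))
      (C.pull_mem (prodMap (𝟙 A) (snd A A)) hω))
    have e1 : (1 : ℤ) + 2 + 1 * (((A.prod A).dim : ℤ) - ((A.prod (A.prod A)).dim : ℤ)) = 1 := by
      rw [dim_prod A (A.prod A), hd]; push_cast; ring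
    rwa [e1] at h2
  have k3 : H.cl η = 0 := by
    rw [hη, H.cl_push, map_mul, H.cl_pull, hcl, map_zero, mul_zero, map_zero]
  have k4 : C.pull (sg A) η = η := by
    have e1 : prodMap (𝟙 A) (sg A) ≫ fst A (A.prod A) = fst A (A.prod A) := by
      rw [prodMap_fst, Category.comp_id]
    have e2 : prodMap (𝟙 A) (sg A) ≫ snd A (A.prod A) ≫ fst A A =
        -(snd A (A.prod A) ≫ fst A A) := by
      rw [← Category.assoc, prodMap_snd, Category.assoc, sg_fst, comp_neg']
    have e3 : prodMap (𝟙 A) (sg A) ≫ prodMap (𝟙 A) (snd A A) =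
        prodMap (𝟙 A) (snd A A) ≫ prodMap (𝟙 A) (-𝟙 A) := by
      apply prod_ext
      · simp only [Category.assoc, prodMap_fst, Category.comp_id]
      · rw [Category.assoc, prodMap_snd, ← Category.assoc, prodMap_snd, Category.assoc, sg_snd,
          Category.assoc, prodMap_snd, ← Category.assoc, prodMap_snd, comp_neg', comp_neg',
          Category.comp_id]
    rw [hη, pull_sg_push]
    congr 1
    rw [map_mul, map_smul, pull_bC, e1, e2, bC_neg_right hc, ← C.pull_comp, e3, C.pull_comp, h1,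
      map_neg, smul_neg, neg_mul_neg]
  have k5 := hpic η k2 k3
  have k6 : η = 0 := eq_zero_of_neg (k4.symm.trans k5)
  rw [k1, k6, mul_zero, smul_zero]

/-- A homologically trivial class of type `(2, 2)` restricts to zero on the diagonal. -/
lemma diag_zero {ζ : C.A (A.prod A)} (hζ : ζ ∈ C.gr (A.prod A) 2) (hcl : H.cl ζ = 0)
    (h : Ty ζ) : ev ζ (𝟙 A) (𝟙 A) = 0 := by
  set κ : C.A A := ev ζ (𝟙 A) (𝟙 A) with hκ
  have k1 : κ ∈ C.gr A A.dim := by
    rw [hd]; exact C.pull_mem _ hζ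
  have k2 : H.cl κ = 0 := by
    rw [hκ, ev, H.cl_pull, hcl, map_zero]
  have k3 := hasDegree_zero_of_cl H k1 k2
  have k4 : C.pull ((2 : ℤ) • 𝟙 A) κ = (16 : ℚ) • κ := by
    rw [hκ, pull_ev, Category.comp_id, (h _ _ _ _).1, (h _ _ _ _).2, smul_smul]
    norm_num
  have k5 : C.pull (mu A A 2) (C.pull (fst A A) κ) = (16 : ℚ) • C.pull (fst A A) κ := by
    rw [← C.pull_comp, mu_fst, ← map_smul, ← k4, ← C.pull_comp, comp_zsmul', Category.comp_id]
  have k6 := eval_four hp hc (C.pull (fst A A) κ) k5 (𝟙 A) (𝟙 A)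
  have e2 : prodMap (𝟙 A) (𝟙 A) = 𝟙 (A.prod A) := by
    apply prod_ext <;> simp
  have e3 : eC θ (snd A A) * eC θ (snd A A) = C.pull (snd A A) (θ * θ) := by
    rw [map_mul]; rfl
  rw [← C.pull_comp, lift_fst, C.pull_id, e2, C.pull_id, Category.comp_id, e3, C.proj_left,
    (k3 A).1, zero_smul, mul_zero, smul_zero] at k6
  exact k6

lemma ev_diag_zero {ζ : C.A (A.prod A)} (hζ : ζ ∈ C.gr (A.prod A) 2) (hcl : H.cl ζ = 0)
    (h : Ty ζ) (x : X ⟶ A) : ev ζ x x = 0 := by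
  have h1 := pull_ev ζ x (𝟙 A) (𝟙 A)
  rw [Category.comp_id, diag_zero hp hc hd hθ hpic hζ hcl h, map_zero] at h1
  exact h1.symm

lemma mid_zero {ζ : C.A (A.prod A)} (hζ : ζ ∈ C.gr (A.prod A) 2) (hcl : H.cl ζ = 0)
    (h : Ty ζ) : mid θ q ζ (fst A A) (snd A A) = 0 := by
  have hm : ∀ {X : 𝒱.Obj} (x y : X ⟶ A), mid θ q ζ x y = ev ζ (x + y) y - ev ζ x y := by
    intro X x y
    rw [mid_eq hp hc h, ev_diag_zero hp hc hd hθ hpic hζ hcl h, sub_zero]
  have hs : ∀ {X : 𝒱.Obj} (x y : X ⟶ A) (t : ℤ), ev ζ (t • x + y) y =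
      ((t : ℚ) ^ 2) • ev ζ x y + (t : ℚ) • mid θ q ζ x y := by
    intro X x y t
    rw [ev_shear hp hc h, ev_diag_zero hp hc hd hθ hpic hζ hcl h, add_zero]
  -- weight one in the first variable
  have w1 : ∀ {X : 𝒱.Obj} (x y : X ⟶ A) (n : ℤ), mid θ q ζ (n • x) y = (n : ℚ) • mid θ q ζ x y := by
    intro X x y n
    rw [hm (n • x) y, hs, (h _ _ _ _).1]
    abel
  -- weight four in total
  have w4 : ∀ {X : 𝒱.Obj} (x y : X ⟶ A) (n : ℤ), mid θ q ζ (n • x) (n • y) =
      ((n : ℚ) ^ 4) • mid θ q ζ x y := by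
    intro X x y n
    rw [hm, hm, ← smul_add, (h _ _ _ _).1, (h _ _ _ _).2, (h _ _ _ _).1, (h _ _ _ _).2,
      smul_smul, smul_smul, ← smul_sub]
    congr 1
    ring
  have w3 : ∀ {X : 𝒱.Obj} (x y : X ⟶ A) (n : ℤ), n ≠ 0 → mid θ q ζ x (n • y) =
      ((n : ℚ) ^ 3) • mid θ q ζ x y := by
    intro X x y n hn
    have h1 := w4 x y n
    rw [w1] at h1
    have hn' : (n : ℚ) ≠ 0 := Int.cast_ne_zero.2 hn
    have h2 := congrArg (fun a => (n : ℚ)⁻¹ • a) h1
    simp only [smul_smul] at h2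
    rw [inv_mul_cancel₀ hn', one_smul] at h2
    rw [h2]
    congr 1
    field_simp
  have nat : ∀ {X : 𝒱.Obj} (x y : X ⟶ A), ev (mid θ q ζ (fst A A) (snd A A)) x y =
      mid θ q ζ x y := by
    intro X x y
    rw [hm (fst A A), hm x, ev, map_sub, pull_ev, pull_ev, comp_add', lift_fst, lift_snd]
  have h0 : tp C (mid θ q ζ (fst A A) (snd A A)) = 0 := by
    refine raise hp hc hd hθ hpic (ω := tp C (mid θ q ζ (fst A A) (snd A A))) ?_ ?_ ?_ ?_
    · exact C.pull_mem _ (mid_mem hd hθ q hζ _ _)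
    · rw [cl_tp, mid_cl q hcl, tp_zero]
    · apply pull_mu_eq
      rw [ev_tp, ev_tp, nat, nat, w3 _ _ 2 (by norm_num)]
      norm_num
    · have e1 : prodMap (𝟙 A) (-𝟙 A) = Obj.lift (fst A A) ((-1 : ℤ) • snd A A) := by
        apply prod_ext
        · simp
        · rw [prodMap_snd, lift_snd, comp_neg', Category.comp_id, neg_smul, one_smul]
      rw [e1]
      change ev _ _ _ = _
      rw [ev_tp, nat, w1, ← nat, ← ev_tp, ev_self]
      norm_num
  rw [← tp_tp C (mid θ q ζ (fst A A) (snd A A)), h0, tp_zero]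

lemma ev_add_left {ζ : C.A (A.prod A)} (hζ : ζ ∈ C.gr (A.prod A) 2) (hcl : H.cl ζ = 0)
    (h : Ty ζ) (x y : X ⟶ A) : ev ζ (x + y) y = ev ζ x y := by
  have h1 := mid_eq hp hc h (fst A A) (snd A A)
  rw [mid_zero hp hc hd hθ hpic hζ hcl h, ev_diag_zero hp hc hd hθ hpic hζ hcl h, sub_zero] at h1
  have h2 := congrArg (C.pull (Obj.lift x y)) h1
  rw [map_zero, map_sub, pull_ev, pull_ev, comp_add', lift_fst, lift_snd] at h2
  exact sub_eq_zero.1 h2.symm

lemma ev_add_right {ζ : C.A (A.prod A)} (hζ : ζ ∈ C.gr (A.prod A) 2) (hcl : H.cl ζ = 0)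
    (h : Ty ζ) (x y : X ⟶ A) : ev ζ x (y + x) = ev ζ x y := by
  have h1 := ev_add_left (X := X) hp hc hd hθ hpic (ζ := tp C ζ) (C.pull_mem _ hζ)
    (by rw [cl_tp, hcl, tp_zero]) h.tp y x
  rwa [ev_tp, ev_tp] at h1

end raise

/-- Homologically trivial classes of type `(2, 2)` on the square of an abelian surface are
symmetric. -/
theorem ty_symm (hA : IsAbelianSurface H A θ) {ζ : C.A (A.prod A)} (hζ : ζ ∈ C.gr (A.prod A) 2)
    (hcl : H.cl ζ = 0) (h : Ty ζ) : tp C ζ = ζ := by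
  obtain ⟨q, hp⟩ := hA.point
  have hc : Cube θ := hA.cube
  rw [← ev_self (tp C ζ), ev_tp]
  have s1 : ev ζ (fst A A) (snd A A) = ev ζ (fst A A + snd A A) (snd A A) :=
    (ev_add_left hp hc hA.dim_eq hA.deg hA.pic hζ hcl h _ _).symm
  have s2 : ev ζ (fst A A + snd A A) (snd A A) = ev ζ (fst A A + snd A A) (-fst A A) := by
    have := ev_add_right hp hc hA.dim_eq hA.deg hA.pic hζ hcl h (fst A A + snd A A) (-fst A A)
    rw [← this]
    congr 1
    abel
  have s3 : ev ζ (fst A A + snd A A) (-fst A A) = ev ζ (snd A A) (-fst A A) := by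
    have := ev_add_left hp hc hA.dim_eq hA.deg hA.pic hζ hcl h (fst A A + snd A A) (-fst A A)
    rw [← this]
    congr 1
    abel
  have s4 : ev ζ (snd A A) (-fst A A) = ev ζ (snd A A) (fst A A) := by
    have := (h _ (snd A A) (fst A A) (-1)).2
    rw [neg_smul, one_smul] at this
    rw [this]
    norm_num
  rw [← s4, ← s3, ← s2, ← s1, ev_self]

end Pool.Agent.Y152.AS
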